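import Mathlib

/-!
# A spectral gap on the torus `(ℤ/n)²`

The shear `(a, b) ↦ (a + b, b)`, the rotation `(a, b) ↦ (-b, a)` and the multiplication by the
character `e(a)` have no almost invariant function that vanishes at the origin.
-/

set_option autoImplicit false

namespace Pool.Agent.KS6_75.SOP

open Finset

variable {n : ℕ} [NeZero n]

/-- the mass of a set -/
noncomputable def mass {V : Type*} [Fintype V] (f : V → ℝ) (P : V → Prop) [DecidablePred P] : ℝ :=
  ∑ v, if P v then f v ^ 2 else 0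

section mass

variable {V : Type*} [Fintype V] (f : V → ℝ)

theorem mass_nonneg (P : V → Prop) [DecidablePred P] : 0 ≤ mass f P :=
  Finset.sum_nonneg fun v _ => by split_ifs <;> positivity

theorem mass_mono {P Q : V → Prop} [DecidablePred P] [DecidablePred Q] (h : ∀ v, P v → Q v) :
    mass f P ≤ mass f Q := by
  refine Finset.sum_le_sum fun v _ => ?_
  by_cases hp : P v
  · rw [if_pos hp, if_pos (h v hp)]
  · rw [if_neg hp]
    split_ifs <;> positivity

theorem mass_or_le {P Q R : V → Prop} [DecidablePred P] [DecidablePred Q] [DecidablePred R]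
    (h : ∀ v, P v → Q v ∨ R v) : mass f P ≤ mass f Q + mass f R := by
  unfold mass
  rw [← Finset.sum_add_distrib]
  refine Finset.sum_le_sum fun v _ => ?_
  have h2 : 0 ≤ f v ^ 2 := sq_nonneg _
  by_cases hp : P v
  · rcases h v hp with hq | hr
    · rw [if_pos hp, if_pos hq]; split_ifs <;> linarith
    · rw [if_pos hp, if_pos hr]; split_ifs <;> linarith
  · rw [if_neg hp]
    split_ifs <;> linarith

theorem mass_disj {P Q R : V → Prop} [DecidablePred P] [DecidablePred Q] [DecidablePred R]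
    (hP : ∀ v, P v → R v) (hQ : ∀ v, Q v → R v) (h : ∀ v, P v → ¬ Q v) :
    mass f P + mass f Q ≤ mass f R := by
  unfold mass
  rw [← Finset.sum_add_distrib]
  refine Finset.sum_le_sum fun v _ => ?_
  have h2 : 0 ≤ f v ^ 2 := sq_nonneg _
  by_cases hp : P v
  · rw [if_pos hp, if_neg (h v hp), if_pos (hP v hp), add_zero]
  · by_cases hq : Q v
    · rw [if_neg hp, if_pos hq, if_pos (hQ v hq), zero_add]
    · rw [if_neg hp, if_neg hq]
      split_ifs <;> linarith

/-- transport of mass by an almost invariant bijection -/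
theorem mass_transport {P Q : V → Prop} [DecidablePred P] [DecidablePred Q] (e : Equiv.Perm V)
    (hinv : ∑ v, (f v - f (e v)) ^ 2 ≤ (∑ v, f v ^ 2) / 3600) (h : ∀ v, P v → Q (e v)) :
    mass f P ≤ mass f Q + (∑ v, f v ^ 2) / 30 := by
  have h1 : mass f Q = ∑ v, if Q (e v) then f (e v) ^ 2 else 0 :=
    (Equiv.sum_comp e fun v => if Q v then f v ^ 2 else 0).symm
  have h2 : ∑ v, f (e v) ^ 2 = ∑ v, f v ^ 2 := Equiv.sum_comp e fun v => f v ^ 2
  have h3 : mass f P ≤ mass f Q + (60 * ∑ v, (f v - f (e v)) ^ 2 +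
      (1 / 240) * ∑ v, (2 * f v ^ 2 + 2 * f (e v) ^ 2)) := by
    rw [h1]
    unfold mass
    rw [Finset.mul_sum, Finset.mul_sum, ← Finset.sum_add_distrib, ← Finset.sum_add_distrib]
    refine Finset.sum_le_sum fun v _ => ?_
    have h4 : f v ^ 2 ≤ f (e v) ^ 2 + (60 * (f v - f (e v)) ^ 2 +
        1 / 240 * (2 * f v ^ 2 + 2 * f (e v) ^ 2)) := by
      nlinarith [sq_nonneg (120 * (f v - f (e v)) - (f v + f (e v))), sq_nonneg (f v - f (e v))]
    by_cases hp : P v
    · rw [if_pos hp, if_pos (h v hp)]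
      exact h4
    · rw [if_neg hp]
      have : 0 ≤ (if Q (e v) then f (e v) ^ 2 else 0) := by split_ifs <;> positivity
      positivity
  have h5 : ∑ v, (2 * f v ^ 2 + 2 * f (e v) ^ 2) = 4 * ∑ v, f v ^ 2 := by
    rw [Finset.sum_add_distrib, ← Finset.mul_sum, ← Finset.mul_sum, h2]
    ring
  rw [h5] at h3
  linarith

/-- the same for the inverse bijection -/
theorem mass_transport' {P Q : V → Prop} [DecidablePred P] [DecidablePred Q] (e : Equiv.Perm V)
    (hinv : ∑ v, (f v - f (e v)) ^ 2 ≤ (∑ v, f v ^ 2) / 3600) (h : ∀ v, P (e v) → Q v) :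
    mass f P ≤ mass f Q + (∑ v, f v ^ 2) / 30 := by
  refine mass_transport f e.symm ?_ fun v hv => h _ (by rwa [Equiv.apply_symm_apply])
  refine le_of_eq_of_le ?_ hinv
  rw [← Equiv.sum_comp e]
  refine Finset.sum_congr rfl fun v _ => ?_
  rw [Equiv.symm_apply_apply]
  ring

end mass

/-- the shear -/
def shear (n : ℕ) : Equiv.Perm (ZMod n × ZMod n) where
  toFun v := (v.1 + v.2, v.2)
  invFun v := (v.1 - v.2, v.2)
  left_inv v := by simp
  right_inv v := by simp

/-- the rotation -/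
def rot (n : ℕ) : Equiv.Perm (ZMod n × ZMod n) where
  toFun v := (-v.2, v.1)
  invFun v := (v.2, -v.1)
  left_inv v := by simp
  right_inv v := by simp

theorem vma_bound (a : ZMod n) : -(n : ℤ) < 2 * ZMod.valMinAbs a ∧ 2 * ZMod.valMinAbs a ≤ n := by
  have h := ZMod.valMinAbs_mem_Ioc a
  constructor
  · linarith [h.1]
  · linarith [h.2]

theorem vma_eq (a : ZMod n) (k : ℤ) (h1 : a = (k : ZMod n)) (h2 : -(n : ℤ) < 2 * k)
    (h3 : 2 * k ≤ n) : ZMod.valMinAbs a = k := by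
  rw [ZMod.valMinAbs_spec]
  exact ⟨h1, by constructor <;> linarith⟩

theorem vma_add (a b : ZMod n) (ha : 4 * |ZMod.valMinAbs a| < n) (hb : 4 * |ZMod.valMinAbs b| < n) :
    ZMod.valMinAbs (a + b) = ZMod.valMinAbs a + ZMod.valMinAbs b := by
  refine vma_eq _ _ (by simp) ?_ ?_
  · have h1 := neg_abs_le (ZMod.valMinAbs a)
    have h2 := neg_abs_le (ZMod.valMinAbs b)
    linarith
  · have h1 := le_abs_self (ZMod.valMinAbs a)
    have h2 := le_abs_self (ZMod.valMinAbs b)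
    linarith

theorem vma_neg (a : ZMod n) (ha : 2 * |ZMod.valMinAbs a| < n) : ZMod.valMinAbs (-a) = -ZMod.valMinAbs a := by
  refine vma_eq _ _ (by simp) ?_ ?_
  · have h1 := le_abs_self (ZMod.valMinAbs a)
    linarith
  · have h1 := neg_abs_le (ZMod.valMinAbs a)
    linarith

theorem vma_neg_abs (a : ZMod n) : |ZMod.valMinAbs (-a)| = |ZMod.valMinAbs a| := by
  rcases eq_or_ne (2 * ZMod.valMinAbs a) (n : ℤ) with h | h
  · have h1 : -a = a := by
      have h2 : (2 : ZMod n) * a = 0 := by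
        have h3 := congrArg (fun k : ℤ => (k : ZMod n)) h
        simp only [Int.cast_mul, ZMod.coe_valMinAbs, Int.cast_natCast, ZMod.natCast_self] at h3
        simpa using h3
      rw [two_mul] at h2
      exact neg_eq_of_add_eq_zero_left h2
    rw [h1]
  · have hb := vma_bound a
    have : 2 * |ZMod.valMinAbs a| < n := by
      rcases abs_cases (ZMod.valMinAbs a) with ⟨h1, _⟩ | ⟨h1, _⟩ <;> rw [h1] <;> omega
    rw [vma_neg a this, abs_neg]

/-- both coordinates are small -/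
def Box (v : ZMod n × ZMod n) : Prop := 4 * |ZMod.valMinAbs v.1| < n ∧ 4 * |ZMod.valMinAbs v.2| < n

instance (v : ZMod n × ZMod n) : Decidable (Box v) := by unfold Box; infer_instance

theorem comb_gap (f : ZMod n × ZMod n → ℝ) (h0 : f (0, 0) = 0)
    (h1 : mass f (fun v => (n : ℤ) ≤ 4 * |ZMod.valMinAbs v.1|) ≤ (∑ v, f v ^ 2) / 7200)
    (h2 : ∑ v, (f v - f (shear n v)) ^ 2 ≤ (∑ v, f v ^ 2) / 3600)
    (h3 : ∑ v, (f v - f (rot n v)) ^ 2 ≤ (∑ v, f v ^ 2) / 3600) : ∑ v, f v ^ 2 = 0 := by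
  set S : ℝ := ∑ v, f v ^ 2 with hS
  have hS0 : 0 ≤ S := Finset.sum_nonneg fun v _ => sq_nonneg _
  have hn : (0 : ℤ) < n := by exact_mod_cast Nat.pos_of_ne_zero (NeZero.ne n)
  -- the second coordinate
  have m2 : mass f (fun v => (n : ℤ) ≤ 4 * |ZMod.valMinAbs v.2|) ≤
      mass f (fun v => (n : ℤ) ≤ 4 * |ZMod.valMinAbs v.1|) + S / 30 :=
    mass_transport f (rot n) h3 fun v hv => by
      show (n : ℤ) ≤ 4 * |ZMod.valMinAbs (-v.2)|
      rw [vma_neg_abs]
      exact hv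
  have mB : mass f (fun v => ¬ Box v) ≤ mass f (fun v => (n : ℤ) ≤ 4 * |ZMod.valMinAbs v.1|) +
      mass f (fun v => (n : ℤ) ≤ 4 * |ZMod.valMinAbs v.2|) :=
    mass_or_le f fun v hv => by
      unfold Box at hv
      rw [not_and_or, not_lt, not_lt] at hv
      exact hv
  have mQ : mass f (fun v => 0 < ZMod.valMinAbs v.1 * ZMod.valMinAbs v.2) ≤
      mass f (fun v => Box v ∧ 0 < ZMod.valMinAbs v.1 * ZMod.valMinAbs v.2) + mass f (fun v => ¬ Box v) :=
    mass_or_le f fun v hv => by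
      by_cases hb : Box v
      · exact Or.inl ⟨hb, hv⟩
      · exact Or.inr hb
  -- shear
  have mL : mass f (fun v => Box v ∧ 0 < ZMod.valMinAbs v.1 * ZMod.valMinAbs v.2) ≤
      mass f (fun v => 0 < ZMod.valMinAbs v.1 * ZMod.valMinAbs v.2 ∧ |ZMod.valMinAbs v.2| < |ZMod.valMinAbs v.1|) + S / 30 :=
    mass_transport f (shear n) h2 fun v hv => by
      obtain ⟨⟨hb1, hb2⟩, hv⟩ := hv
      show 0 < ZMod.valMinAbs (v.1 + v.2) * ZMod.valMinAbs v.2 ∧ |ZMod.valMinAbs v.2| < |ZMod.valMinAbs (v.1 + v.2)|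
      rw [vma_add _ _ hb1 hb2]
      constructor
      · nlinarith [sq_nonneg (ZMod.valMinAbs v.2)]
      · rcases mul_pos_iff.1 hv with ⟨p1, p2⟩ | ⟨p1, p2⟩
        · rw [abs_of_pos p2, abs_of_pos (by linarith)]
          linarith
        · rw [abs_of_neg p2, abs_of_neg (by linarith)]
          linarith
  -- the transposed shear
  have mG1 : mass f (fun v => Box v ∧ 0 < ZMod.valMinAbs v.1 * ZMod.valMinAbs v.2) ≤
      mass f (fun v => Box v ∧ ZMod.valMinAbs v.1 * ZMod.valMinAbs v.2 < 0) + S / 30 :=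
    mass_transport f (rot n) h3 fun v hv => by
      obtain ⟨⟨hb1, hb2⟩, hv⟩ := hv
      have hneg := vma_neg v.2 (by have := abs_nonneg (ZMod.valMinAbs v.2); linarith)
      refine ⟨⟨?_, hb1⟩, ?_⟩
      · show 4 * |ZMod.valMinAbs (-v.2)| < n
        rw [vma_neg_abs]
        exact hb2
      · show ZMod.valMinAbs (-v.2) * ZMod.valMinAbs v.1 < 0
        rw [hneg]
        nlinarith
  have mG2 : mass f (fun v => Box v ∧ ZMod.valMinAbs v.1 * ZMod.valMinAbs v.2 < 0) ≤
      mass f (fun v => ZMod.valMinAbs v.1 * ZMod.valMinAbs v.2 < 0 ∧ |ZMod.valMinAbs v.2| < |ZMod.valMinAbs v.1| ∧ 2 * |ZMod.valMinAbs v.1| < n) + S / 30 :=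
    mass_transport' f (shear n) h2 fun v hv => by
      obtain ⟨⟨hb1, hb2⟩, hv⟩ := hv
      have hb1' : 4 * |ZMod.valMinAbs (v.1 + v.2)| < n := hb1
      have hb2' : 4 * |ZMod.valMinAbs v.2| < n := hb2
      have hv' : ZMod.valMinAbs (v.1 + v.2) * ZMod.valMinAbs v.2 < 0 := hv
      have hneg := vma_neg v.2 (by have := abs_nonneg (ZMod.valMinAbs v.2); linarith)
      have e1 : ZMod.valMinAbs v.1 = ZMod.valMinAbs (v.1 + v.2) - ZMod.valMinAbs v.2 := by
        have := vma_add (v.1 + v.2) (-v.2) hb1' (by rw [vma_neg_abs]; exact hb2')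
        rw [add_neg_cancel_right, hneg] at this
        rw [this]
        ring
      set p := ZMod.valMinAbs (v.1 + v.2) with hp
      set q := ZMod.valMinAbs v.2 with hq
      rw [e1]
      refine ⟨?_, ?_, ?_⟩
      · nlinarith [sq_nonneg q]
      · rcases mul_neg_iff.1 hv' with ⟨p1, p2⟩ | ⟨p1, p2⟩
        · rw [abs_of_neg p2, abs_of_pos (by linarith)]
          linarith
        · rw [abs_of_pos p2, abs_of_neg (by linarith)]
          linarith
      · have := abs_sub p q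
        linarith
  have mG3 : mass f (fun v => ZMod.valMinAbs v.1 * ZMod.valMinAbs v.2 < 0 ∧ |ZMod.valMinAbs v.2| < |ZMod.valMinAbs v.1| ∧ 2 * |ZMod.valMinAbs v.1| < n) ≤
      mass f (fun v => 0 < ZMod.valMinAbs v.1 * ZMod.valMinAbs v.2 ∧ |ZMod.valMinAbs v.1| < |ZMod.valMinAbs v.2|) + S / 30 :=
    mass_transport' f (rot n) h3 fun v hv => by
      obtain ⟨hv1, hv2, hv3⟩ := hv
      have hv1' : ZMod.valMinAbs (-v.2) * ZMod.valMinAbs v.1 < 0 := hv1
      have hv2' : |ZMod.valMinAbs v.1| < |ZMod.valMinAbs (-v.2)| := hv2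
      have hv3' : 2 * |ZMod.valMinAbs (-v.2)| < n := hv3
      rw [vma_neg_abs] at hv2' hv3'
      have hneg := vma_neg v.2 hv3'
      rw [hneg] at hv1'
      exact ⟨by nlinarith, hv2'⟩
  have mD : mass f (fun v => 0 < ZMod.valMinAbs v.1 * ZMod.valMinAbs v.2 ∧ |ZMod.valMinAbs v.2| < |ZMod.valMinAbs v.1|) +
      mass f (fun v => 0 < ZMod.valMinAbs v.1 * ZMod.valMinAbs v.2 ∧ |ZMod.valMinAbs v.1| < |ZMod.valMinAbs v.2|) ≤
        mass f (fun v => 0 < ZMod.valMinAbs v.1 * ZMod.valMinAbs v.2) :=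
    mass_disj f (fun v hv => hv.1) (fun v hv => hv.1) fun v hv hv' => by
      have := hv.2
      have := hv'.2
      omega
  -- the second sector
  have mM : mass f (fun v => Box v ∧ ZMod.valMinAbs v.1 * ZMod.valMinAbs v.2 < 0) ≤
      mass f (fun v => Box v ∧ 0 < ZMod.valMinAbs v.1 * ZMod.valMinAbs v.2) + S / 30 :=
    mass_transport f (rot n) h3 fun v hv => by
      obtain ⟨⟨hb1, hb2⟩, hv⟩ := hv
      have hneg := vma_neg v.2 (by have := abs_nonneg (ZMod.valMinAbs v.2); linarith)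
      refine ⟨⟨?_, hb1⟩, ?_⟩
      · show 4 * |ZMod.valMinAbs (-v.2)| < n
        rw [vma_neg_abs]
        exact hb2
      · show 0 < ZMod.valMinAbs (-v.2) * ZMod.valMinAbs v.1
        rw [hneg]
        nlinarith
  -- the axes
  have mY : mass f (fun v => Box v ∧ ZMod.valMinAbs v.1 = 0 ∧ ZMod.valMinAbs v.2 ≠ 0) ≤
      mass f (fun v => 0 < ZMod.valMinAbs v.1 * ZMod.valMinAbs v.2) + S / 30 :=
    mass_transport f (shear n) h2 fun v hv => by
      obtain ⟨⟨hb1, hb2⟩, hv1, hv2⟩ := hv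
      show 0 < ZMod.valMinAbs (v.1 + v.2) * ZMod.valMinAbs v.2
      rw [vma_add _ _ hb1 hb2, hv1, zero_add]
      exact mul_self_pos.2 hv2
  have mX : mass f (fun v => Box v ∧ ZMod.valMinAbs v.2 = 0 ∧ ZMod.valMinAbs v.1 ≠ 0) ≤
      mass f (fun v => Box v ∧ ZMod.valMinAbs v.1 = 0 ∧ ZMod.valMinAbs v.2 ≠ 0) + S / 30 :=
    mass_transport f (rot n) h3 fun v hv => by
      obtain ⟨⟨hb1, hb2⟩, hv1, hv2⟩ := hv
      have hz : v.2 = 0 := (ZMod.valMinAbs_eq_zero v.2).1 hv1
      refine ⟨⟨?_, hb1⟩, ?_, hv2⟩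
      · show 4 * |ZMod.valMinAbs (-v.2)| < n
        rw [vma_neg_abs]
        exact hb2
      · show ZMod.valMinAbs (-v.2) = 0
        rw [hz, neg_zero, ZMod.valMinAbs_zero]
  -- everything
  have t1 : S = mass f (fun v => v ≠ (0, 0)) := by
    rw [hS]
    unfold mass
    refine Finset.sum_congr rfl fun v _ => ?_
    by_cases hv : v = (0, 0)
    · rw [if_neg (not_not.2 hv), hv, h0]
      norm_num
    · rw [if_pos hv]
  have t2 : mass f (fun v => v ≠ (0, 0)) ≤ mass f (fun v => ¬ Box v) +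
      mass f (fun v => Box v ∧ v ≠ (0, 0)) :=
    mass_or_le f fun v hv => by
      by_cases hb : Box v
      · exact Or.inr ⟨hb, hv⟩
      · exact Or.inl hb
  have t3 : mass f (fun v => Box v ∧ v ≠ (0, 0)) ≤
      mass f (fun v => Box v ∧ 0 < ZMod.valMinAbs v.1 * ZMod.valMinAbs v.2) +
        mass f (fun v => Box v ∧ ¬ 0 < ZMod.valMinAbs v.1 * ZMod.valMinAbs v.2 ∧ v ≠ (0, 0)) :=
    mass_or_le f fun v hv => by
      by_cases hb : 0 < ZMod.valMinAbs v.1 * ZMod.valMinAbs v.2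
      · exact Or.inl ⟨hv.1, hb⟩
      · exact Or.inr ⟨hv.1, hb, hv.2⟩
  have t4 : mass f (fun v => Box v ∧ ¬ 0 < ZMod.valMinAbs v.1 * ZMod.valMinAbs v.2 ∧ v ≠ (0, 0)) ≤
      mass f (fun v => Box v ∧ ZMod.valMinAbs v.1 * ZMod.valMinAbs v.2 < 0) +
        mass f (fun v => Box v ∧ ZMod.valMinAbs v.1 * ZMod.valMinAbs v.2 = 0 ∧ v ≠ (0, 0)) :=
    mass_or_le f fun v hv => by
      obtain ⟨hb, h1, h2⟩ := hv
      rcases lt_trichotomy (ZMod.valMinAbs v.1 * ZMod.valMinAbs v.2) 0 with h | h | h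
      · exact Or.inl ⟨hb, h⟩
      · exact Or.inr ⟨hb, h, h2⟩
      · exact absurd h h1
  have t5 : mass f (fun v => Box v ∧ ZMod.valMinAbs v.1 * ZMod.valMinAbs v.2 = 0 ∧ v ≠ (0, 0)) ≤
      mass f (fun v => Box v ∧ ZMod.valMinAbs v.1 = 0 ∧ ZMod.valMinAbs v.2 ≠ 0) +
        mass f (fun v => Box v ∧ ZMod.valMinAbs v.2 = 0 ∧ ZMod.valMinAbs v.1 ≠ 0) :=
    mass_or_le f fun v hv => by
      obtain ⟨hb, h1, h2⟩ := hv
      by_cases hx : ZMod.valMinAbs v.1 = 0
      · left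
        refine ⟨hb, hx, fun hy => h2 ?_⟩
        exact Prod.ext ((ZMod.valMinAbs_eq_zero _).1 hx) ((ZMod.valMinAbs_eq_zero _).1 hy)
      · right
        exact ⟨hb, (mul_eq_zero.1 h1).resolve_left hx, hx⟩
  rw [← t1] at t2
  linarith

end Pool.Agent.KS6_75.SOP
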