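import Mathlib

/-!
# Spectral projections of an element of order `n` of an algebra
-/

set_option autoImplicit false
set_option linter.unusedSectionVars false

namespace Pool.Agent.KS6_75.SOP

open Finset

variable {n : ℕ} [NeZero n] {R : Type*} [Ring R] [Algebra ℂ R]

/-- the standard character -/
noncomputable abbrev ee (n : ℕ) [NeZero n] : AddChar (ZMod n) ℂ := ZMod.stdAddChar

/-- powers with exponents in `ℤ/n` -/
def zp (T : R) (s : ZMod n) : R := T ^ s.val

theorem zp_add (T : R) (h : T ^ n = 1) (s t : ZMod n) : zp T (s + t) = zp T s * zp T t := by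
  unfold zp
  rw [ZMod.val_add, ← pow_eq_pow_mod _ h, pow_add]

theorem zp_zero (T : R) : zp T (0 : ZMod n) = 1 := by
  unfold zp
  rw [ZMod.val_zero, pow_zero]

theorem zp_one (T : R) (h : T ^ n = 1) : zp T (1 : ZMod n) = T := by
  unfold zp
  rw [ZMod.val_one_eq_one_mod, ← pow_eq_pow_mod _ h, pow_one]

/-- the spectral projection of `T` for the eigenvalue `e(u)` -/
noncomputable def sp (T : R) (u : ZMod n) : R :=
  (n : ℂ)⁻¹ • ∑ s : ZMod n, ee n (-(s * u)) • zp T s

theorem ee_sum (s : ZMod n) : ∑ u : ZMod n, ee n (-(s * u)) = if s = 0 then (n : ℂ) else 0 := by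
  have h := AddChar.sum_mulShift (-s) (ZMod.isPrimitive_stdAddChar n)
  have h2 : ∀ u : ZMod n, -(s * u) = u * -s := fun u => by ring
  simp only [h2]
  rw [h]
  by_cases hs : s = 0
  · simp [hs, ZMod.card]
  · simp [hs]

theorem n_ne : (n : ℂ) ≠ 0 := by exact_mod_cast NeZero.ne n

theorem sp_sum (T : R) : ∑ u : ZMod n, sp T u = 1 := by
  unfold sp
  rw [← Finset.smul_sum, Finset.sum_comm]
  have h : ∀ s : ZMod n, ∑ u : ZMod n, ee n (-(s * u)) • zp T s =
      if s = 0 then (n : ℂ) • (1 : R) else 0 := by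
    intro s
    rw [← Finset.sum_smul, ee_sum]
    by_cases hs : s = 0
    · rw [if_pos hs, if_pos hs, hs, zp_zero]
    · rw [if_neg hs, if_neg hs, zero_smul]
  rw [Finset.sum_congr rfl fun s _ => h s, Finset.sum_ite_eq' Finset.univ (0 : ZMod n)]
  rw [if_pos (Finset.mem_univ _), smul_smul, inv_mul_cancel₀ n_ne, one_smul]

theorem mul_sp (T : R) (h : T ^ n = 1) (u : ZMod n) : T * sp T u = ee n u • sp T u := by
  unfold sp
  rw [mul_smul_comm, Finset.mul_sum, smul_comm (ee n u) (n : ℂ)⁻¹]
  congr 1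
  rw [Finset.smul_sum, ← Equiv.sum_comp (Equiv.addRight (1 : ZMod n)) fun s => ee n u • ee n (-(s * u)) • zp T s]
  refine Finset.sum_congr rfl fun s _ => ?_
  have e1 : (Equiv.addRight (1 : ZMod n)) s = 1 + s := by
    rw [Equiv.coe_addRight, add_comm]
  rw [e1, zp_add T h, zp_one T h, mul_smul_comm, smul_smul, ← AddChar.map_add_eq_mul]
  congr 2
  ring

theorem pow_mul_sp (T : R) (h : T ^ n = 1) (u : ZMod n) (k : ℕ) :
    T ^ k * sp T u = ee n u ^ k • sp T u := by
  induction k with
  | zero => rw [pow_zero, pow_zero, one_mul, one_smul]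
  | succ k ih => rw [pow_succ, mul_assoc, mul_sp T h, mul_smul_comm, ih, smul_smul, pow_succ,
      mul_comm]

theorem zp_mul_sp (T : R) (h : T ^ n = 1) (s u : ZMod n) :
    zp T s * sp T u = ee n (s * u) • sp T u := by
  unfold zp
  rw [pow_mul_sp T h, ← AddChar.map_nsmul_eq_pow, nsmul_eq_mul, ZMod.natCast_zmod_val]

theorem sp_intertwine (T T' C : R) (h : C * T = T' * C) (u : ZMod n) :
    C * sp T u = sp T' u * C := by
  have hk : ∀ k : ℕ, C * T ^ k = T' ^ k * C := by
    intro k
    induction k with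
    | zero => rw [pow_zero, pow_zero, mul_one, one_mul]
    | succ k ih => rw [pow_succ, ← mul_assoc, ih, mul_assoc, h, pow_succ, mul_assoc]
  unfold sp
  rw [mul_smul_comm, smul_mul_assoc, Finset.mul_sum, Finset.sum_mul]
  congr 1
  refine Finset.sum_congr rfl fun s _ => ?_
  rw [mul_smul_comm, smul_mul_assoc]
  unfold zp
  rw [hk]

theorem sp_inv (T T' : R) (h : T ^ n = 1) (h' : T' * T = 1) (u : ZMod n) :
    sp T' u = sp T (-u) := by
  have hk : ∀ k : ℕ, T' ^ k * T ^ k = 1 := by
    intro k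
    induction k with
    | zero => rw [pow_zero, pow_zero, one_mul]
    | succ k ih =>
      calc T' ^ (k + 1) * T ^ (k + 1) = T' ^ k * (T' * T) * T ^ k := by
            rw [pow_succ, pow_succ']; noncomm_ring
        _ = 1 := by rw [h', mul_one, ih]
  have hz : ∀ s : ZMod n, zp T' s = zp T (-s) := by
    intro s
    calc zp T' s = zp T' s * zp T (s + -s) := by rw [add_neg_cancel, zp_zero, mul_one]
      _ = zp T' s * zp T s * zp T (-s) := by rw [zp_add T h, mul_assoc]
      _ = zp T (-s) := by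
        unfold zp
        rw [hk, one_mul]
  unfold sp
  congr 1
  rw [← Equiv.sum_comp (Equiv.neg (ZMod n)) fun s => ee n (-(s * -u)) • zp T s]
  refine Finset.sum_congr rfl fun s _ => ?_
  rw [Equiv.neg_apply, hz, neg_mul_neg]

theorem sp_mul_sp (T S : R) (hTS : Commute T S) (hS : S ^ n = 1) (u w : ZMod n) :
    sp (T * S) u * sp S w = sp T (u - w) * sp S w := by
  have h1 : ∀ s : ZMod n, zp (T * S) s = zp T s * zp S s := fun s => hTS.mul_pow _
  unfold sp
  rw [smul_mul_assoc, smul_mul_assoc]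
  congr 1
  rw [Finset.sum_mul, Finset.sum_mul]
  refine Finset.sum_congr rfl fun s _ => ?_
  rw [smul_mul_assoc, smul_mul_assoc, h1, mul_assoc]
  have h2 := zp_mul_sp S hS s w
  unfold sp at h2
  rw [h2, mul_smul_comm, smul_smul, ← AddChar.map_add_eq_mul]
  congr 2
  ring

theorem sp_comm (T S : R) (hTS : Commute T S) (u w : ZMod n) :
    sp T u * sp S w = sp S w * sp T u := by
  refine sp_intertwine S S (sp T u) ?_ w
  exact (sp_intertwine T T S hTS.symm.eq u).symm

end Pool.Agent.KS6_75.SOP
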