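import Mathlib
import Pool.Agent.KS6_75.SOP.Comb
import Pool.Agent.KS6_75.SOP.Spec
import Pool.Graph.R_seed8.Helper278.TrAlg

/-!
# A uniform spectral gap for clock and shift unitaries and two Clifford unitaries
-/

set_option autoImplicit false
set_option linter.unusedSectionVars false

open scoped ComplexOrder

namespace Pool.Agent.KS6_75.SOP

open Finset Pool.Agent.Helper278

variable {A : Type*} [Ring A] [StarRing A] [Algebra ℂ A] [StarModule ℂ A]

/-- conjugation by `u` -/
def cj (u : A) : Module.End ℂ A where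
  toFun x := u * x * star u
  map_add' x y := by rw [mul_add, add_mul]
  map_smul' c x := by rw [mul_smul_comm, smul_mul_assoc, RingHom.id_apply]

theorem cj_apply (u x : A) : cj u x = u * x * star u := rfl

theorem cj_mul (u v : A) : cj (u * v) = cj u * cj v := by
  ext x
  show u * v * x * star (u * v) = u * (v * x * star v) * star u
  rw [star_mul]
  noncomm_ring

theorem cj_one : cj (1 : A) = 1 := by
  ext x
  show 1 * x * star 1 = x
  rw [star_one, one_mul, mul_one]

theorem cj_pow (u : A) (k : ℕ) : cj (u ^ k) = cj u ^ k := by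
  induction k with
  | zero => rw [pow_zero, pow_zero, cj_one]
  | succ k ih => rw [pow_succ, cj_mul, ih, pow_succ]

theorem cj_smul (c : ℂ) (hc : c * star c = 1) (u : A) : cj (c • u) = cj u := by
  ext x
  show c • u * x * star (c • u) = u * x * star u
  rw [star_smul, smul_mul_assoc, smul_mul_assoc, mul_smul_comm, smul_smul, hc, one_smul]

section gap

variable {τ : A →ₗ[ℂ] ℂ} (h : TrAlg τ) {n : ℕ} [NeZero n]

include h

theorem n2_sq' (x : A) : ((n2 τ x ^ 2 : ℝ) : ℂ) = τ (star x * x) := by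
  rw [h.n2_sq]
  exact (Complex.conj_eq_iff_re.1 (by
    have := h.conj (star x * x)
    rw [star_mul, star_star] at this
    exact this.symm))

theorem n2_smul (c : ℂ) (x : A) : n2 τ (c • x) = ‖c‖ * n2 τ x := by
  have h1 : n2 τ (c • x) ^ 2 = (‖c‖ * n2 τ x) ^ 2 := by
    rw [h.n2_sq, mul_pow, h.n2_sq, star_smul, smul_mul_smul_comm, map_smul, smul_eq_mul,
      ← n2_sq' h]
    have : star c * c = ((‖c‖ ^ 2 : ℝ) : ℂ) := by
      rw [Complex.star_def, Complex.conj_mul']
      push_cast
      rfl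
    rw [this, ← Complex.ofReal_mul, Complex.ofReal_re, Complex.ofReal_re]
  exact (pow_left_inj₀ (n2_nonneg _ _) (mul_nonneg (norm_nonneg _) (n2_nonneg _ _))
    two_ne_zero).1 h1

theorem inner_cj (u : A) (hu : star u * u = 1) (x y : A) :
    τ (star (cj u x) * cj u y) = τ (star x * y) := by
  rw [cj_apply, cj_apply, star_mul, star_mul, star_star]
  have e1 : u * (star x * star u) * (u * y * star u) = u * (star x * (star u * u) * y) * star u := by
    noncomm_ring
  rw [e1, hu, mul_one, h.comm, ← mul_assoc, hu, one_mul]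

theorem n2_cj (u : A) (hu : star u * u = 1) (x : A) : n2 τ (cj u x) = n2 τ x := by
  unfold n2
  rw [inner_cj h u hu]

theorem n2_mul_unitary (x u : A) (hu : u * star u = 1) : n2 τ (x * u) = n2 τ x := by
  unfold n2
  rw [star_mul, h.comm]
  have : x * u * (star u * star x) = x * (u * star u) * star x := by noncomm_ring
  rw [this, hu, mul_one, h.comm]

theorem n2_sub_cj (x u : A) (hu : u * star u = 1) (hu' : star u * u = 1) :
    n2 τ (x - cj u x) = n2 τ (x * u - u * x) := by
  rw [← n2_mul_unitary h (x - cj u x) u]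
  · congr 1
    rw [cj_apply, sub_mul, mul_assoc (u * x), hu', mul_one]
  · exact hu

/-- a sum of pairwise orthogonal elements -/
theorem n2_sum {V : Type*} [Fintype V] (x : V → A)
    (ho : ∀ v w, v ≠ w → τ (star (x v) * x w) = 0) :
    n2 τ (∑ v, x v) ^ 2 = ∑ v, n2 τ (x v) ^ 2 := by
  classical
  rw [h.n2_sq, star_sum, Finset.sum_mul_sum, map_sum, Complex.re_sum]
  refine Finset.sum_congr rfl fun v _ => ?_
  rw [map_sum, Finset.sum_eq_single v, h.n2_sq]
  · intro w _ hw
    exact ho v w (Ne.symm hw)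
  · intro hv
    exact absurd (Finset.mem_univ v) hv

variable {X Z D F : A}

/-- the relations of the clock and shift unitaries and of the two Clifford unitaries -/
structure Rel (n : ℕ) [NeZero n] (X Z D F : A) : Prop where
  X1 : star X * X = 1
  X2 : X * star X = 1
  Z1 : star Z * Z = 1
  Z2 : Z * star Z = 1
  D1 : star D * D = 1
  D2 : D * star D = 1
  F1 : star F * F = 1
  F2 : F * star F = 1
  Xn : X ^ n = 1
  Zn : Z ^ n = 1
  ZX : ∃ c : ℂ, c * star c = 1 ∧ Z * X = c • (X * Z)
  DX : ∃ c : ℂ, c * star c = 1 ∧ D * X = c • (X * Z * D)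
  DZ : D * Z = Z * D
  FX : F * X = Z * F
  FZ : F * Z = star X * F

/-- the component of `x` for the character `v` -/
noncomputable def comp (X Z : A) (x : A) (v : ZMod n × ZMod n) : A :=
  (sp (cj X) v.1 * sp (cj Z) v.2) x

omit h in
theorem Rel.comm (r : Rel n X Z D F) : Commute (cj X) (cj Z) := by
  obtain ⟨c, hc, e1⟩ := r.ZX
  show cj X * cj Z = cj Z * cj X
  rw [← cj_mul, ← cj_mul, e1, cj_smul c hc]

omit h in
theorem Rel.cXn (r : Rel n X Z D F) : cj X ^ n = 1 := by rw [← cj_pow, r.Xn, cj_one]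

omit h in
theorem Rel.cZn (r : Rel n X Z D F) : cj Z ^ n = 1 := by rw [← cj_pow, r.Zn, cj_one]

omit h in
theorem comp_add (x y : A) (v : ZMod n × ZMod n) :
    comp X Z (x + y) v = comp X Z x v + comp X Z y v := map_add _ _ _

omit h in
theorem comp_sub (x y : A) (v : ZMod n × ZMod n) :
    comp X Z (x - y) v = comp X Z x v - comp X Z y v := map_sub _ _ _

omit h in
theorem Rel.X_comp (r : Rel n X Z D F) (x : A) (v : ZMod n × ZMod n) :
    cj X (comp X Z x v) = ee n v.1 • comp X Z x v := by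
  unfold comp
  have h1 : cj X * (sp (cj X) v.1 * sp (cj Z) v.2) =
      ee n v.1 • (sp (cj X) v.1 * sp (cj Z) v.2) := by
    rw [← mul_assoc, mul_sp _ r.cXn, smul_mul_assoc]
  exact congrArg (fun T : Module.End ℂ A => T x) h1

omit h in
theorem Rel.Z_comp (r : Rel n X Z D F) (x : A) (v : ZMod n × ZMod n) :
    cj Z (comp X Z x v) = ee n v.2 • comp X Z x v := by
  unfold comp
  have h1 : cj Z * (sp (cj X) v.1 * sp (cj Z) v.2) =
      ee n v.2 • (sp (cj X) v.1 * sp (cj Z) v.2) := by
    rw [← mul_assoc, sp_intertwine (cj X) (cj X) (cj Z) r.comm.symm.eq, mul_assoc,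
      mul_sp _ r.cZn, mul_smul_comm]
  exact congrArg (fun T : Module.End ℂ A => T x) h1

omit h in
theorem Rel.comp_X (r : Rel n X Z D F) (x : A) (v : ZMod n × ZMod n) :
    comp X Z (cj X x) v = ee n v.1 • comp X Z x v := by
  rw [← r.X_comp]
  unfold comp
  have h1 : (sp (cj X) v.1 * sp (cj Z) v.2) * cj X = cj X * (sp (cj X) v.1 * sp (cj Z) v.2) := by
    rw [mul_assoc, ← sp_intertwine (cj Z) (cj Z) (cj X) r.comm.eq, ← mul_assoc, ← mul_assoc,
      sp_intertwine (cj X) (cj X) (cj X) rfl]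
  exact congrArg (fun T : Module.End ℂ A => T x) h1

omit h in
theorem Rel.comp_sum (_r : Rel n X Z D F) (x : A) : ∑ v : ZMod n × ZMod n, comp X Z x v = x := by
  unfold comp
  rw [← LinearMap.sum_apply, Fintype.sum_prod_type]
  have h1 : ∑ a : ZMod n, ∑ b : ZMod n, sp (cj X) a * sp (cj Z) b = 1 := by
    rw [← Finset.sum_mul_sum, sp_sum, sp_sum, one_mul]
  rw [h1]
  rfl

omit h in
theorem ee_ne (a b : ZMod n) (hab : a ≠ b) : star (ee n a) * ee n b ≠ 1 := by
  intro h1
  have h2 : star (ee n a) = ee n (-a) := (AddChar.map_neg_eq_conj _ a).symm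
  rw [h2, ← AddChar.map_add_eq_mul] at h1
  have h3 : ee n (-a + b) = ee n 0 := by rw [h1, AddChar.map_zero_eq_one]
  have h4 := ZMod.injective_stdAddChar h3
  exact hab (by
    have : b = a + (-a + b) := by ring
    rw [this, h4, add_zero])

theorem Rel.orth (r : Rel n X Z D F) (x y : A) (v w : ZMod n × ZMod n) (hvw : v ≠ w) :
    τ (star (comp X Z x v) * comp X Z y w) = 0 := by
  have key : ∀ (a b : ZMod n), a ≠ b → ∀ t : ℂ, t = star (ee n a) * ee n b * t → t = 0 := by
    intro a b hab t ht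
    have h1 : (1 - star (ee n a) * ee n b) * t = 0 := by
      rw [sub_mul, one_mul, ← ht, sub_self]
    exact (mul_eq_zero.1 h1).resolve_left fun h2 => ee_ne a b hab (sub_eq_zero.1 h2).symm
  by_cases h1 : v.1 = w.1
  · have h2 : v.2 ≠ w.2 := fun h2 => hvw (Prod.ext h1 h2)
    refine key v.2 w.2 h2 _ ?_
    conv_lhs => rw [← inner_cj h Z r.Z1, r.Z_comp, r.Z_comp]
    rw [star_smul, smul_mul_smul_comm, map_smul, smul_eq_mul]
  · refine key v.1 w.1 h1 _ ?_
    conv_lhs => rw [← inner_cj h X r.X1, r.X_comp, r.X_comp]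
    rw [star_smul, smul_mul_smul_comm, map_smul, smul_eq_mul]

theorem Rel.parseval (r : Rel n X Z D F) (x : A) :
    ∑ v : ZMod n × ZMod n, n2 τ (comp X Z x v) ^ 2 = n2 τ x ^ 2 := by
  rw [← n2_sum h _ fun v w hvw => r.orth h x x v w hvw, r.comp_sum]

theorem Rel.diff (r : Rel n X Z D F) (x y : A) :
    ∑ v : ZMod n × ZMod n, (n2 τ (comp X Z x v) - n2 τ (comp X Z y v)) ^ 2 ≤
      n2 τ (x - y) ^ 2 := by
  rw [← r.parseval h (x - y)]
  refine Finset.sum_le_sum fun v _ => ?_
  rw [comp_sub]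
  have h1 := h.n2_add_le (comp X Z x v - comp X Z y v) (comp X Z y v)
  have h2 := h.n2_add_le (comp X Z y v - comp X Z x v) (comp X Z x v)
  rw [sub_add_cancel] at h1 h2
  rw [h.n2_sub_comm (comp X Z y v)] at h2
  exact sq_le_sq' (by linarith) (by linarith)

omit h in
theorem Rel.comp_D (r : Rel n X Z D F) (x : A) (v : ZMod n × ZMod n) :
    comp X Z (cj D x) v = cj D (comp X Z x (shear n v)) := by
  obtain ⟨c, hc, e1⟩ := r.DX
  have h1 : cj D * cj X = cj X * cj Z * cj D := by
    rw [← cj_mul, ← cj_mul, ← cj_mul, e1, cj_smul c hc]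
  have h2 : cj D * cj Z = cj Z * cj D := by rw [← cj_mul, ← cj_mul, r.DZ]
  have h3 : (sp (cj X) v.1 * sp (cj Z) v.2) * cj D =
      cj D * (sp (cj X) (v.1 + v.2) * sp (cj Z) v.2) := by
    symm
    rw [← mul_assoc, sp_intertwine _ _ _ h1, mul_assoc, sp_intertwine _ _ _ h2, ← mul_assoc,
      sp_mul_sp _ _ r.comm r.cZn, add_sub_cancel_right]
  exact congrArg (fun T : Module.End ℂ A => T x) h3

omit h in
theorem Rel.comp_F (r : Rel n X Z D F) (x : A) (v : ZMod n × ZMod n) :
    comp X Z (cj F x) (rot n v) = cj F (comp X Z x v) := by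
  have h1 : cj F * cj X = cj Z * cj F := by rw [← cj_mul, ← cj_mul, r.FX]
  have h2 : cj F * cj Z = cj (star X) * cj F := by rw [← cj_mul, ← cj_mul, r.FZ]
  have h3 : sp (cj (star X)) v.2 = sp (cj X) (-v.2) :=
    sp_inv (cj X) (cj (star X)) r.cXn (by rw [← cj_mul, r.X1, cj_one]) _
  have h4 : (sp (cj X) (-v.2) * sp (cj Z) v.1) * cj F =
      cj F * (sp (cj X) v.1 * sp (cj Z) v.2) := by
    symm
    rw [← mul_assoc, sp_intertwine _ _ _ h1, mul_assoc, sp_intertwine _ _ _ h2, ← mul_assoc,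
      h3, sp_comm _ _ r.comm]
  exact congrArg (fun T : Module.End ℂ A => T x) h4

omit h in
/-- the character is far from `1` far from the origin -/
theorem ee_far (a : ZMod n) (ha : (n : ℤ) ≤ 4 * |ZMod.valMinAbs a|) :
    2 ≤ ‖1 - ee n a‖ ^ 2 := by
  have hn : (0 : ℝ) < n := by exact_mod_cast Nat.pos_of_ne_zero (NeZero.ne n)
  set k : ℤ := ZMod.valMinAbs a with hk
  have h1 : ee n a = Complex.exp ((2 * Real.pi * k / n : ℝ) * Complex.I) := by
    have h2 : a = (k : ZMod n) := (ZMod.coe_valMinAbs a).symm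
    conv_lhs => rw [h2]
    rw [ZMod.stdAddChar_coe]
    congr 1
    push_cast
    ring
  set t : ℝ := 2 * Real.pi * k / n with ht
  have h3 : ‖1 - Complex.exp ((t : ℂ) * Complex.I)‖ ^ 2 = 2 - 2 * Real.cos t := by
    rw [← Complex.normSq_eq_norm_sq, Complex.normSq_apply]
    simp only [Complex.sub_re, Complex.one_re, Complex.sub_im, Complex.one_im,
      Complex.exp_ofReal_mul_I_re, Complex.exp_ofReal_mul_I_im]
    nlinarith [Real.sin_sq_add_cos_sq t]
  rw [h1, h3]
  have hb := vma_bound a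
  have hb1 : -(n : ℝ) ≤ 2 * k := by exact_mod_cast hb.1.le
  have hb2 : 2 * (k : ℝ) ≤ n := by exact_mod_cast hb.2
  have ha' : (n : ℝ) ≤ 4 * |(k : ℝ)| := by exact_mod_cast ha
  have hpi := Real.pi_pos
  have hcos : Real.cos t ≤ 0 := by
    rw [← Real.cos_abs]
    have e1 : |t| = 2 * Real.pi * |(k : ℝ)| / n := by
      rw [ht, abs_div, abs_mul, abs_mul, abs_of_pos hpi, abs_of_pos hn, abs_two]
    refine Real.cos_nonpos_of_pi_div_two_le_of_le ?_ ?_
    · rw [e1, le_div_iff₀ hn]
      nlinarith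
    · rw [e1, div_le_iff₀ hn]
      have : 2 * |(k : ℝ)| ≤ n := by
        rcases abs_cases (k : ℝ) with ⟨h5, _⟩ | ⟨h5, _⟩ <;> rw [h5] <;> linarith
      nlinarith [abs_nonneg (k : ℝ)]
  linarith

theorem Rel.gap0 (r : Rel n X Z D F) (x : A) (hx : comp X Z x ((0 : ZMod n), (0 : ZMod n)) = 0)
    (hX : 60 * n2 τ (x - cj X x) ≤ n2 τ x) (hD : 60 * n2 τ (x - cj D x) ≤ n2 τ x)
    (hF : 60 * n2 τ (x - cj F x) ≤ n2 τ x) : n2 τ x = 0 := by
  have hsq : ∀ y : A, 60 * n2 τ y ≤ n2 τ x → n2 τ y ^ 2 ≤ n2 τ x ^ 2 / 3600 := by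
    intro y hy
    have h0 := n2_nonneg τ y
    nlinarith
  have hS := r.parseval h x
  have main := comb_gap (fun v => n2 τ (comp X Z x v)) (by
      show n2 τ (comp X Z x ((0 : ZMod n), (0 : ZMod n))) = 0
      rw [hx, h.n2_zero])
    (by
      rw [hS]
      have h1 := hsq _ hX
      have h2 := r.parseval h (x - cj X x)
      have h3 : 2 * mass (fun v => n2 τ (comp X Z x v))
          (fun v : ZMod n × ZMod n => (n : ℤ) ≤ 4 * |ZMod.valMinAbs v.1|) ≤
          n2 τ (x - cj X x) ^ 2 := by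
        rw [← h2]
        unfold mass
        rw [Finset.mul_sum]
        refine Finset.sum_le_sum fun v _ => ?_
        rw [comp_sub, r.comp_X]
        have e1 : comp X Z x v - ee n v.1 • comp X Z x v = (1 - ee n v.1) • comp X Z x v := by
          rw [sub_smul, one_smul]
        rw [e1, n2_smul h, mul_pow]
        split_ifs with hv
        · exact mul_le_mul_of_nonneg_right (ee_far v.1 hv) (sq_nonneg _)
        · rw [mul_zero]
          positivity
      linarith)
    (by
      rw [hS]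
      refine le_trans (le_of_eq ?_) ((r.diff h x (cj D x)).trans (hsq _ hD))
      refine Finset.sum_congr rfl fun v _ => ?_
      rw [r.comp_D, n2_cj h D r.D1])
    (by
      rw [hS]
      refine le_trans (le_of_eq ?_) ((r.diff h (cj F x) x).trans (by
        rw [h.n2_sub_comm]
        exact hsq _ hF))
      conv_rhs => rw [← Equiv.sum_comp (rot n)]
      refine Finset.sum_congr rfl fun v _ => ?_
      rw [r.comp_F, n2_cj h F r.F1])
  rw [hS] at main
  exact pow_eq_zero_iff two_ne_zero |>.1 main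

/-- the expectation onto the relative commutant -/
noncomputable def ex (n : ℕ) [NeZero n] (X Z : A) (x : A) : A :=
  comp X Z x ((0 : ZMod n), (0 : ZMod n))

omit h in
theorem comp_zero_of_fixed (x : A) (h1 : cj X x = x) (h2 : cj Z x = x) : ex n X Z x = x := by
  have hp : ∀ (T : Module.End ℂ A), T x = x → (sp T (0 : ZMod n)) x = x := by
    intro T hT
    have hk : ∀ k : ℕ, (T ^ k) x = x := by
      intro k
      induction k with
      | zero => rfl
      | succ k ih =>
        rw [pow_succ]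
        show (T ^ k) (T x) = x
        rw [hT, ih]
    unfold sp
    rw [LinearMap.smul_apply, LinearMap.sum_apply]
    have : ∀ s : ZMod n, (ee n (-(s * 0)) • zp T s) x = x := by
      intro s
      rw [LinearMap.smul_apply, mul_zero, neg_zero, AddChar.map_zero_eq_one, one_smul]
      exact hk _
    rw [Finset.sum_congr rfl fun s _ => this s, Finset.sum_const, Finset.card_univ, ZMod.card,
      ← Nat.cast_smul_eq_nsmul ℂ, smul_smul, inv_mul_cancel₀ n_ne, one_smul]
  show (sp (cj X) (0 : ZMod n)) ((sp (cj Z) (0 : ZMod n)) x) = x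
  rw [hp _ h2, hp _ h1]

omit h in
theorem Rel.ex_X (r : Rel n X Z D F) (x : A) : ex n X Z x * X = X * ex n X Z x := by
  have h1 := r.X_comp x ((0 : ZMod n), (0 : ZMod n))
  rw [AddChar.map_zero_eq_one, one_smul, cj_apply] at h1
  show comp X Z x ((0 : ZMod n), (0 : ZMod n)) * X = X * comp X Z x ((0 : ZMod n), (0 : ZMod n))
  conv_lhs => rw [← h1, mul_assoc, r.X1, mul_one]

omit h in
theorem Rel.ex_Z (r : Rel n X Z D F) (x : A) : ex n X Z x * Z = Z * ex n X Z x := by
  have h1 := r.Z_comp x ((0 : ZMod n), (0 : ZMod n))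
  rw [AddChar.map_zero_eq_one, one_smul, cj_apply] at h1
  show comp X Z x ((0 : ZMod n), (0 : ZMod n)) * Z = Z * comp X Z x ((0 : ZMod n), (0 : ZMod n))
  conv_lhs => rw [← h1, mul_assoc, r.Z1, mul_one]

omit h in
theorem cj_fix {u y : A} (hu : u * star u = 1) (hy : y * u = u * y) : cj u y = y := by
  rw [cj_apply, ← hy, mul_assoc, hu, mul_one]

/-- the difference `x - ex x` is orthogonal to the commutant -/
theorem Rel.ex_orth (r : Rel n X Z D F) (x y : A) (hX : y * X = X * y) (hZ : y * Z = Z * y) :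
    τ (star (x - ex n X Z x) * y) = 0 := by
  have hy : ex n X Z y = y := comp_zero_of_fixed y (cj_fix r.X2 hX) (cj_fix r.Z2 hZ)
  have hx : x - ex n X Z x = ∑ v ∈ Finset.univ.erase ((0 : ZMod n), (0 : ZMod n)),
      comp X Z x v := by
    rw [Finset.sum_erase_eq_sub (Finset.mem_univ _), r.comp_sum]
    rfl
  rw [hx, star_sum, Finset.sum_mul, map_sum]
  refine Finset.sum_eq_zero fun v hv => ?_
  rw [← hy]
  exact r.orth h x y v _ (Finset.ne_of_mem_erase hv)

/-- Pythagoras -/
theorem Rel.pyth (r : Rel n X Z D F) (x y : A) (hX : y * X = X * y) (hZ : y * Z = Z * y) :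
    n2 τ (x - y) ^ 2 = n2 τ (x - ex n X Z x) ^ 2 + n2 τ (ex n X Z x - y) ^ 2 := by
  have hw : τ (star (x - ex n X Z x) * (ex n X Z x - y)) = 0 := by
    refine r.ex_orth h x _ ?_ ?_
    · rw [sub_mul, mul_sub, hX, r.ex_X]
    · rw [sub_mul, mul_sub, hZ, r.ex_Z]
  have hw' : τ (star (ex n X Z x - y) * (x - ex n X Z x)) = 0 := by
    have := h.conj (star (x - ex n X Z x) * (ex n X Z x - y))
    rw [star_mul, star_star, hw, star_zero] at this
    exact this
  set a := x - ex n X Z x with ha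
  set b := ex n X Z x - y with hb
  have e1 : x - y = a + b := by rw [ha, hb]; abel
  rw [e1, h.n2_sq, h.n2_sq, h.n2_sq]
  have e2 : star (a + b) * (a + b) = star a * a + star b * b + (star a * b + star b * a) := by
    rw [star_add]; noncomm_ring
  rw [e2, map_add, map_add, map_add, hw, hw']
  simp

/-- the nearest point property -/
theorem Rel.near (r : Rel n X Z D F) (x y : A) (hX : y * X = X * y) (hZ : y * Z = Z * y) :
    n2 τ (x - ex n X Z x) ≤ n2 τ (x - y) := by
  have h1 := r.pyth h x y hX hZ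
  refine (pow_le_pow_iff_left₀ (n2_nonneg _ _) (n2_nonneg _ _) two_ne_zero).1 ?_
  nlinarith [sq_nonneg (n2 τ (ex n X Z x - y))]

/-- **The spectral gap.** -/
theorem Rel.gap (r : Rel n X Z D F)
    (hc : ∀ y : A, y * X = X * y → y * Z = Z * y → y * D = D * y ∧ y * F = F * y) (x : A) :
    n2 τ (x - ex n X Z x) ≤ 60 * (n2 τ (x * X - X * x) + n2 τ (x * D - D * x) +
      n2 τ (x * F - F * x)) := by
  by_contra hcon
  push Not at hcon
  set y := x - ex n X Z x with hy
  obtain ⟨hD, hF⟩ := hc (ex n X Z x) (r.ex_X x) (r.ex_Z x)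
  have k1 : ∀ u : A, ex n X Z x * u = u * ex n X Z x → x * u - u * x = y * u - u * y := by
    intro u hu
    rw [hy, sub_mul, mul_sub, hu]
    abel
  rw [k1 X (r.ex_X x), k1 D hD, k1 F hF] at hcon
  have p1 := n2_nonneg τ (y * X - X * y)
  have p2 := n2_nonneg τ (y * D - D * y)
  have p3 := n2_nonneg τ (y * F - F * y)
  have hy0 : comp X Z y ((0 : ZMod n), (0 : ZMod n)) = 0 := by
    rw [hy, comp_sub]
    have : ex n X Z (ex n X Z x) = ex n X Z x :=
      comp_zero_of_fixed _ (cj_fix r.X2 (r.ex_X x)) (cj_fix r.Z2 (r.ex_Z x))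
    show ex n X Z x - ex n X Z (ex n X Z x) = 0
    rw [this, sub_self]
  have h0 := r.gap0 h y hy0
    (by rw [n2_sub_cj h y X r.X2 r.X1]; linarith)
    (by rw [n2_sub_cj h y D r.D2 r.D1]; linarith)
    (by rw [n2_sub_cj h y F r.F2 r.F1]; linarith)
  rw [h0] at hcon
  linarith

end gap

end Pool.Agent.KS6_75.SOP
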