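import Mathlib
import Pool.Agent.KS6_75.SOP.Gap

/-!
# Clock and shift matrices and two Clifford matrices
-/

set_option autoImplicit false
set_option linter.unusedSectionVars false

namespace Pool.Agent.KS6_75.SOP

open Finset Matrix

variable {n : ℕ} [NeZero n]

/-- the shift matrix -/
def Xm (n : ℕ) [NeZero n] : Matrix (ZMod n) (ZMod n) ℂ :=
  Matrix.of fun i j => if i = j + 1 then 1 else 0

/-- the clock matrix -/
noncomputable def Zm (n : ℕ) [NeZero n] : Matrix (ZMod n) (ZMod n) ℂ :=
  Matrix.diagonal fun i => ee n i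

/-- the Gauss function -/
noncomputable def gs (n : ℕ) [NeZero n] (j : ZMod n) : ℂ :=
  Complex.exp (Real.pi * Complex.I * (j.val : ℂ) ^ 2 / n)

/-- the diagonal Clifford matrix -/
noncomputable def Dm (n : ℕ) [NeZero n] : Matrix (ZMod n) (ZMod n) ℂ :=
  Matrix.diagonal fun i => gs n i

/-- the Fourier matrix -/
noncomputable def Fm (n : ℕ) [NeZero n] : Matrix (ZMod n) (ZMod n) ℂ :=
  Matrix.of fun i j => ((Real.sqrt n : ℝ) : ℂ)⁻¹ * ee n (i * j)

theorem ee_star (a : ZMod n) : star (ee n a) = ee n (-a) := (AddChar.map_neg_eq_conj _ a).symm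

theorem ee_star_mul (a : ZMod n) : star (ee n a) * ee n a = 1 := by
  rw [ee_star, ← AddChar.map_add_eq_mul, neg_add_cancel, AddChar.map_zero_eq_one]

theorem gs_star_mul (a : ZMod n) : star (gs n a) * gs n a = 1 := by
  unfold gs
  rw [Complex.star_def, ← Complex.exp_conj, ← Complex.exp_add]
  have : (starRingEnd ℂ) (Real.pi * Complex.I * (a.val : ℂ) ^ 2 / n) +
      Real.pi * Complex.I * (a.val : ℂ) ^ 2 / n = 0 := by
    simp only [map_div₀, map_mul, map_pow, Complex.conj_ofReal, Complex.conj_I, Complex.conj_natCast]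
    ring
  rw [this, Complex.exp_zero]

theorem gs_succ (hn : Even n) (j : ZMod n) :
    gs n (j + 1) = Complex.exp (Real.pi * Complex.I / n) * ee n j * gs n j := by
  have hn0 : (n : ℂ) ≠ 0 := n_ne
  have he : ee n j = Complex.exp (2 * Real.pi * Complex.I * (j.val : ℂ) / n) := by
    have h1 : j = ((j.val : ℤ) : ZMod n) := by
      rw [Int.cast_natCast, ZMod.natCast_zmod_val]
    conv_lhs => rw [h1]
    rw [ZMod.stdAddChar_coe]
    push_cast
    rfl
  rw [he]
  unfold gs
  rw [← Complex.exp_add, ← Complex.exp_add]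
  have hv : (j + 1).val = (j.val + 1) % n := by
    rw [ZMod.val_add, ZMod.val_one_eq_one_mod, Nat.add_mod_mod]
  have hlt := ZMod.val_lt j
  rcases Nat.lt_or_ge (j.val + 1) n with h | h
  · rw [hv, Nat.mod_eq_of_lt h]
    congr 1
    push_cast
    field_simp
    ring
  · have h2 : j.val + 1 = n := by omega
    rw [hv, h2, Nat.mod_self]
    have h3 : (j.val : ℂ) = n - 1 := by
      have : ((j.val + 1 : ℕ) : ℂ) = n := by rw [h2]
      push_cast at this
      rw [← this]
      ring
    rw [h3]
    have h4 : (Real.pi : ℂ) * Complex.I / n + 2 * Real.pi * Complex.I * (n - 1) / n +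
        Real.pi * Complex.I * (n - 1) ^ 2 / n = n * (Real.pi * Complex.I) := by
      field_simp
      ring
    rw [h4]
    obtain ⟨m, hm⟩ := hn
    have h5 : (n : ℂ) * (Real.pi * Complex.I) = (m : ℂ) * (2 * Real.pi * Complex.I) := by
      rw [hm]
      push_cast
      ring
    rw [h5, Complex.exp_nat_mul_two_pi_mul_I]
    simp

theorem Xm_pow (k : ℕ) : Xm n ^ k = Matrix.of fun i j => if i = j + (k : ZMod n) then 1 else 0 := by
  induction k with
  | zero =>
    ext i j
    simp [Matrix.one_apply]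
  | succ k ih =>
    rw [pow_succ, ih]
    ext i j
    rw [Matrix.mul_apply]
    simp only [Xm, Matrix.of_apply]
    rw [Finset.sum_eq_single (j + 1)]
    · simp only [if_true, mul_one, Nat.cast_succ]
      congr 1
      rw [add_assoc, add_comm (1 : ZMod n)]
    · intro b _ hb
      rw [if_neg hb, mul_zero]
    · intro hb
      exact absurd (Finset.mem_univ _) hb

theorem Xm_star : star (Xm n) * Xm n = 1 := by
  ext i j
  rw [Matrix.mul_apply]
  simp only [Matrix.star_eq_conjTranspose, Matrix.conjTranspose_apply, Xm, Matrix.of_apply]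
  rw [Finset.sum_eq_single (j + 1)]
  · by_cases h : i = j
    · simp [h, Matrix.one_apply]
    · simp [h, Matrix.one_apply, Ne.symm h]
  · intro b _ hb
    rw [if_neg hb, mul_zero]
  · intro hb
    exact absurd (Finset.mem_univ _) hb

theorem diag_star (d : ZMod n → ℂ) (hd : ∀ i, star (d i) * d i = 1) :
    star (Matrix.diagonal d) * Matrix.diagonal d = 1 := by
  rw [Matrix.star_eq_conjTranspose, Matrix.diagonal_conjTranspose, Matrix.diagonal_mul_diagonal,
    ← Matrix.diagonal_one]
  congr 1
  funext i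
  exact hd i

theorem Fm_star : star (Fm n) * Fm n = 1 := by
  ext i j
  rw [Matrix.mul_apply]
  simp only [Matrix.star_eq_conjTranspose, Matrix.conjTranspose_apply, Fm, Matrix.of_apply]
  have hn : (0 : ℝ) < n := by exact_mod_cast Nat.pos_of_ne_zero (NeZero.ne n)
  have h1 : ∀ k : ZMod n, star (((Real.sqrt n : ℝ) : ℂ)⁻¹ * ee n (k * i)) *
      (((Real.sqrt n : ℝ) : ℂ)⁻¹ * ee n (k * j)) = (n : ℂ)⁻¹ * ee n (-((i - j) * k)) := by
    intro k
    rw [star_mul', ee_star, Complex.star_def, map_inv₀, Complex.conj_ofReal]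
    have h2 : ((Real.sqrt n : ℝ) : ℂ)⁻¹ * ((Real.sqrt n : ℝ) : ℂ)⁻¹ = (n : ℂ)⁻¹ := by
      rw [← mul_inv, ← Complex.ofReal_mul, Real.mul_self_sqrt hn.le]
      push_cast
      rfl
    have h3 : ee n (-((i - j) * k)) = ee n (-(k * i)) * ee n (k * j) := by
      rw [← AddChar.map_add_eq_mul]
      congr 1
      ring
    rw [h3, ← h2]
    ring
  rw [Finset.sum_congr rfl fun k _ => h1 k, ← Finset.mul_sum, ee_sum]
  by_cases h : i = j
  · rw [if_pos (sub_eq_zero.2 h), h, Matrix.one_apply_eq, inv_mul_cancel₀ n_ne]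
  · rw [if_neg (fun h' => h (sub_eq_zero.1 h')), Matrix.one_apply_ne h, mul_zero]

theorem rel_m (hn : Even n) : Rel n (Xm n) (Zm n) (Dm n) (Fm n) := by
  have hX := Xm_star (n := n)
  have hZ : star (Zm n) * Zm n = 1 := diag_star _ ee_star_mul
  have hD : star (Dm n) * Dm n = 1 := diag_star _ gs_star_mul
  have hF := Fm_star (n := n)
  refine ⟨hX, mul_eq_one_comm.1 hX, hZ, mul_eq_one_comm.1 hZ, hD, mul_eq_one_comm.1 hD, hF,
    mul_eq_one_comm.1 hF, ?_, ?_, ?_, ?_, ?_, ?_, ?_⟩
  · rw [Xm_pow]
    ext i j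
    simp [Matrix.one_apply]
  · unfold Zm
    rw [Matrix.diagonal_pow, ← Matrix.diagonal_one]
    congr 1
    funext i
    rw [Pi.pow_apply, ← AddChar.map_nsmul_eq_pow, nsmul_eq_mul, CharP.cast_eq_zero, zero_mul,
      AddChar.map_zero_eq_one]
  · refine ⟨ee n 1, by rw [mul_comm]; exact ee_star_mul 1, ?_⟩
    ext i j
    unfold Zm
    rw [Matrix.diagonal_mul, Matrix.smul_apply, Matrix.mul_diagonal]
    simp only [Xm, Matrix.of_apply, smul_eq_mul]
    by_cases h : i = j + 1
    · rw [if_pos h, h, AddChar.map_add_eq_mul]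
      ring
    · rw [if_neg h]
      ring
  · refine ⟨Complex.exp (Real.pi * Complex.I / n), ?_, ?_⟩
    · rw [Complex.star_def, ← Complex.exp_conj, ← Complex.exp_add]
      have : (Real.pi : ℂ) * Complex.I / n + (starRingEnd ℂ) (Real.pi * Complex.I / n) = 0 := by
        simp only [map_div₀, map_mul, Complex.conj_ofReal, Complex.conj_I, Complex.conj_natCast]
        ring
      rw [this, Complex.exp_zero]
    · ext i j
      unfold Zm Dm
      rw [Matrix.diagonal_mul, Matrix.smul_apply, Matrix.mul_diagonal, Matrix.mul_diagonal]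
      simp only [Xm, Matrix.of_apply, smul_eq_mul]
      by_cases h : i = j + 1
      · rw [if_pos h, h, gs_succ hn]
        ring
      · rw [if_neg h]
        ring
  · unfold Zm Dm
    rw [Matrix.diagonal_mul_diagonal, Matrix.diagonal_mul_diagonal]
    congr 1
    funext i
    ring
  · ext i j
    unfold Zm
    rw [Matrix.diagonal_mul, Matrix.mul_apply]
    simp only [Xm, Fm, Matrix.of_apply]
    rw [Finset.sum_eq_single (j + 1)]
    · rw [if_pos rfl, mul_add, AddChar.map_add_eq_mul, mul_one i]
      ring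
    · intro b _ hb
      rw [if_neg hb, mul_zero]
    · intro hb
      exact absurd (Finset.mem_univ _) hb
  · ext i j
    unfold Zm
    rw [Matrix.mul_diagonal, Matrix.mul_apply]
    simp only [Matrix.star_eq_conjTranspose, Matrix.conjTranspose_apply, Xm, Fm, Matrix.of_apply]
    rw [Finset.sum_eq_single (i + 1)]
    · rw [if_pos rfl, star_one, add_mul, AddChar.map_add_eq_mul, one_mul (j : ZMod n)]
      ring
    · intro b _ hb
      rw [if_neg hb, star_zero, zero_mul]
    · intro hb
      exact absurd (Finset.mem_univ _) hb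

section hom

variable {A : Type*} [Ring A] [StarRing A] [Algebra ℂ A] [StarModule ℂ A]

theorem Rel.map {B : Type*} [Ring B] [StarRing B] [Algebra ℂ B] [StarModule ℂ B] {X Z D F : B}
    (r : Rel n X Z D F) (ρ : B →⋆ₐ[ℂ] A) : Rel n (ρ X) (ρ Z) (ρ D) (ρ F) := by
  have k : ∀ {x y : B}, x = y → ρ x = ρ y := fun h => congrArg ρ h
  refine ⟨?_, ?_, ?_, ?_, ?_, ?_, ?_, ?_, ?_, ?_, ?_, ?_, ?_, ?_, ?_⟩
  · rw [← map_star, ← map_mul, r.X1, map_one]
  · rw [← map_star, ← map_mul, r.X2, map_one]
  · rw [← map_star, ← map_mul, r.Z1, map_one]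
  · rw [← map_star, ← map_mul, r.Z2, map_one]
  · rw [← map_star, ← map_mul, r.D1, map_one]
  · rw [← map_star, ← map_mul, r.D2, map_one]
  · rw [← map_star, ← map_mul, r.F1, map_one]
  · rw [← map_star, ← map_mul, r.F2, map_one]
  · rw [← map_pow, r.Xn, map_one]
  · rw [← map_pow, r.Zn, map_one]
  · obtain ⟨c, hc, e⟩ := r.ZX
    exact ⟨c, hc, by rw [← map_mul, e, map_smul, map_mul]⟩
  · obtain ⟨c, hc, e⟩ := r.DX
    exact ⟨c, hc, by rw [← map_mul, e, map_smul, map_mul, map_mul]⟩
  · rw [← map_mul, r.DZ, map_mul]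
  · rw [← map_mul, r.FX, map_mul]
  · rw [← map_mul, r.FZ, map_mul, map_star]

/-- an element commuting with the clock and shift unitaries commutes with all matrices -/
theorem comm_all (ρ : Matrix (ZMod n) (ZMod n) ℂ →⋆ₐ[ℂ] A) (y : A)
    (hX : y * ρ (Xm n) = ρ (Xm n) * y) (hZ : y * ρ (Zm n) = ρ (Zm n) * y)
    (m : Matrix (ZMod n) (ZMod n) ℂ) : y * ρ m = ρ m * y := by
  let S : Subalgebra ℂ (Matrix (ZMod n) (ZMod n) ℂ) :=
    (Subalgebra.centralizer ℂ {y}).comap ρ.toAlgHom
  have hS : ∀ x, x ∈ S ↔ y * ρ x = ρ x * y := by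
    intro x
    show ρ x ∈ Subalgebra.centralizer ℂ {y} ↔ _
    rw [Subalgebra.mem_centralizer_iff]
    simp
  have hXS : Xm n ∈ S := (hS _).2 hX
  have hZS : Zm n ∈ S := (hS _).2 hZ
  have hdiag : ∀ a : ZMod n, Matrix.single a a (1 : ℂ) ∈ S := by
    intro a
    have h1 : Matrix.single a a (1 : ℂ) =
        (n : ℂ)⁻¹ • ∑ t : ZMod n, ee n (-(a * t)) • (Zm n) ^ t.val := by
      ext i j
      rw [Matrix.smul_apply, Matrix.sum_apply]
      have h2 : ∀ t : ZMod n, (ee n (-(a * t)) • (Zm n) ^ t.val) i j =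
          if i = j then ee n (-((a - i) * t)) else 0 := by
        intro t
        rw [Matrix.smul_apply]
        unfold Zm
        rw [Matrix.diagonal_pow, Matrix.diagonal_apply]
        by_cases hij : i = j
        · rw [if_pos hij, if_pos hij, Pi.pow_apply, ← AddChar.map_nsmul_eq_pow, nsmul_eq_mul,
            ZMod.natCast_zmod_val, smul_eq_mul, ← AddChar.map_add_eq_mul]
          congr 1
          ring
        · rw [if_neg hij, if_neg hij, smul_zero]
      rw [Finset.sum_congr rfl fun t _ => h2 t]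
      by_cases hij : i = j
      · simp only [if_pos hij]
        rw [ee_sum, ← hij]
        by_cases ha : a = i
        · rw [if_pos (sub_eq_zero.2 ha), ha, smul_eq_mul, inv_mul_cancel₀ n_ne,
            Matrix.single_apply_same]
        · rw [if_neg (fun h' => ha (sub_eq_zero.1 h')), smul_zero,
            Matrix.single_apply_of_ne]
          tauto
      · simp only [if_neg hij, Finset.sum_const_zero, smul_zero]
        rw [Matrix.single_apply_of_ne]
        rintro ⟨h3, h4⟩
        exact hij (h3.symm.trans h4)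
    rw [h1]
    exact S.smul_mem (S.sum_mem fun t _ => S.smul_mem (S.pow_mem hZS _) _) _
  have hsing : ∀ a b : ZMod n, Matrix.single a b (1 : ℂ) ∈ S := by
    intro a b
    have h1 : Matrix.single a b (1 : ℂ) = Xm n ^ (a - b).val * Matrix.single b b (1 : ℂ) := by
      rw [Xm_pow]
      ext i j
      rw [Matrix.mul_apply]
      simp only [Matrix.of_apply, ZMod.natCast_zmod_val]
      rw [Finset.sum_eq_single b]
      · by_cases hj : b = j
        · subst hj
          by_cases hi : a = i
          · subst hi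
            simp
          · rw [Matrix.single_apply_of_ne _ _ _ _ _ (by tauto), if_neg, zero_mul]
            intro h2
            apply hi
            rw [h2]
            ring
        · rw [Matrix.single_apply_of_ne _ _ _ _ _ (by tauto),
            Matrix.single_apply_of_ne _ _ _ _ _ (by tauto), mul_zero]
      · intro c _ hc
        rw [Matrix.single_apply_of_ne _ _ _ _ _ (by tauto), mul_zero]
      · intro hb
        exact absurd (Finset.mem_univ _) hb
    rw [h1]
    exact S.mul_mem (S.pow_mem hXS _) (hdiag b)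
  have hm : m ∈ S := by
    rw [Matrix.matrix_eq_sum_single m]
    refine S.sum_mem fun a _ => S.sum_mem fun b _ => ?_
    have : Matrix.single a b (m a b) = m a b • Matrix.single a b (1 : ℂ) := by
      rw [Matrix.smul_single, smul_eq_mul, mul_one]
    rw [this]
    exact S.smul_mem (hsing a b) _
  exact (hS m).1 hm

end hom

end Pool.Agent.KS6_75.SOP
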