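import Mathlib
import Pool.Agent.KS6_75.SOP.Mat
import Pool.Graph.R_pool_sql_team_seeded_f0cf7b00.H690R2.NS.Units

/-!
# An infinite chain of matrix algebras in a II₁ factor
-/

set_option autoImplicit false
set_option linter.unusedSectionVars false

open scoped InnerProductSpace ComplexOrder Topology

namespace Pool.Agent.KS6_75.SOP

open Finset Pool.Agent.Helper278 Pool.Agent.H690R2.NS

/-- splitting a system of matrix units -/
theorem exists_refine (M : TVNA) (hM : IsIIOneFactor M.N M.τ) {ι : Type} [Fintype ι]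
    [DecidableEq ι] [Nonempty ι] (E : ι → ι → M.A) (hE : IsMU E) :
    ∃ E' : ι × Bool → ι × Bool → M.A, IsMU E' ∧
      ∀ a b, E a b = ∑ c : Bool, E' (a, c) (b, c) := by
  classical
  have hA := trAlg M.T
  have hL : LyapProp M.T.τ := lyapProp M.T (diffuse_of_factor M.T hM.center hM.infinite)
  let i0 : ι := Classical.arbitrary ι
  set e0 : M.A := E i0 i0 with he0
  have hcard : 0 < Fintype.card ι := Fintype.card_pos
  have hcR : (0 : ℝ) < (Fintype.card ι : ℝ) := by exact_mod_cast hcard
  have h00 : e0 * e0 = e0 := hE.same _ _ _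
  have hs0 : star e0 = e0 := hE.adj _ _
  have htr : M.T.τ e0 = ((1 / (Fintype.card ι : ℝ) : ℝ) : ℂ) := by
    have h1 := hE.trace M.τ (fun x y => map_add M.T.τ x y) M.trace.one M.trace.tracial i0
    have h2 : (Fintype.card ι : ℂ) ≠ 0 := by exact_mod_cast hcard.ne'
    have h3 : M.T.τ e0 = (Fintype.card ι : ℂ)⁻¹ := eq_inv_of_mul_eq_one_right h1
    rw [h3]
    push_cast
    rw [one_div]
  have hpos0 : Pos e0 := by
    have := pos_star_mul e0
    rwa [hs0, h00] at this
  have hpos1 : Pos (1 - e0) := by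
    have := pos_star_mul (1 - e0)
    have e1 : star (1 - e0) * (1 - e0) = 1 - e0 := by
      rw [star_sub, star_one, hs0]
      have : (1 - e0) * (1 - e0) = 1 - e0 - e0 + e0 * e0 := by noncomm_ring
      rw [this, h00]
      abel
    rwa [e1] at this
  obtain ⟨pc, hpc, htp, hle⟩ := hA.equal_pieces hL e0 e0 hs0 hs0 rfl hpos0 hpos1 hpos1
    (by rw [mul_sub, mul_one, h00, sub_self]) 1 (2 * Fintype.card ι - 1) (by omega)
    (Or.inr (by
      rw [htr, Complex.ofReal_re]
      have : ((1 : ℕ) : ℝ) + ((2 * Fintype.card ι - 1 : ℕ) : ℝ) = 2 * Fintype.card ι := by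
        rw [Nat.cast_sub (by omega)]
        push_cast
        ring
      rw [this, Nat.cast_one]
      exact one_div_le_one_div_of_le hcR (by linarith)))
  set p : M.A := pc (Sum.inl 0) with hp
  have hpp : p * p = p := hpc.idem _
  have hps : star p = p := hpc.star_eq _
  have h0p : e0 * p = p := (hle 0).1
  have hp0 : p * e0 = p := (hle 0).2
  set q : M.A := e0 - p with hq
  have hqs : star q = q := by rw [hq, star_sub, hs0, hps]
  have hqq : q * q = q := by
    rw [hq]
    have : (e0 - p) * (e0 - p) = e0 * e0 - e0 * p - p * e0 + p * p := by noncomm_ring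
    rw [this, h00, h0p, hp0, hpp]
    abel
  have hpq : p * q = 0 := by rw [hq, mul_sub, hp0, hpp, sub_self]
  have hqp : q * p = 0 := by rw [hq, sub_mul, h0p, hpp, sub_self]
  have hpq1 : p + q = e0 := by rw [hq]; abel
  have hτ : M.T.τ p = M.T.τ q := by
    rw [hq, map_sub, htr, htp]
    have : ((1 : ℕ) : ℝ) + ((2 * Fintype.card ι - 1 : ℕ) : ℝ) = 2 * Fintype.card ι := by
      rw [Nat.cast_sub (by omega)]
      push_cast
      ring
    rw [this, ← Complex.ofReal_sub]
    congr 1
    field_simp
    ring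
  obtain ⟨v, hv1, hv2⟩ := exists_equiv M.T hM.center p q hps hpp hqs hqq hτ
  have hvp : v * p = v := by
    have h1 : v * (1 - p) = 0 := by
      apply hA.faithful
      have h2 : star (v * (1 - p)) * (v * (1 - p)) = (1 - p) * (star v * v) * (1 - p) := by
        rw [star_mul, star_sub, star_one, hps]
        noncomm_ring
      rw [h2, hv1]
      have h3 : (1 - p) * p * (1 - p) = 0 := by
        have : (1 - p) * p = 0 := by rw [sub_mul, one_mul, hpp, sub_self]
        rw [this, zero_mul]
      rw [h3, map_zero]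
    rw [mul_sub, mul_one, sub_eq_zero] at h1
    exact h1.symm
  have hqv : q * v = v := by rw [← hv2, mul_assoc, hv1, hvp]
  have hpv' : p * star v = star v := by
    have := congrArg star hvp
    rwa [star_mul, hps] at this
  have hvq' : star v * q = star v := by
    have := congrArg star hqv
    rwa [star_mul, hqs] at this
  have hpv : p * v = 0 := by rw [← hqv, ← mul_assoc, hpq, zero_mul]
  have hvq : v * q = 0 := by rw [← hvp, mul_assoc, hpq, mul_zero]
  have hqv' : q * star v = 0 := by rw [← hpv', ← mul_assoc, hqp, zero_mul]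
  have hvp' : star v * p = 0 := by rw [← hvq', mul_assoc, hqp, mul_zero]
  have hvv : v * v = 0 := by
    calc v * v = v * p * v := by rw [hvp]
      _ = 0 := by rw [mul_assoc, hpv, mul_zero]
  have hvv' : star v * star v = 0 := by rw [← star_mul, hvv, star_zero]
  let w : Bool → Bool → M.A := fun c d => match c, d with
    | false, false => p
    | true, true => q
    | true, false => v
    | false, true => star v
  have wmul : ∀ c d d' f, w c d * w d' f = if d = d' then w c f else 0 := by
    intro c d d' f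
    cases c <;> cases d <;> cases d' <;> cases f <;>
      simp [w, hpp, hqq, hpq, hqp, hvp, hqv, hpv', hvq', hpv, hvq, hqv', hvp', hvv, hvv', hv1, hv2]
  have wstar : ∀ c d, star (w c d) = w d c := by
    intro c d
    cases c <;> cases d <;> simp [w, hps, hqs]
  have w0 : ∀ c d, w c d * e0 = w c d := by
    intro c d
    rw [← hpq1, mul_add]
    cases c <;> cases d <;>
      simp [w, hpp, hqq, hpq, hqp, hvp, hqv, hpv', hvq', hpv, hvq, hqv', hvp']
  have w0' : ∀ c d, e0 * w c d = w c d := by
    intro c d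
    rw [← hpq1, add_mul]
    cases c <;> cases d <;>
      simp [w, hpp, hqq, hpq, hqp, hvp, hqv, hpv', hvq', hpv, hvq, hqv', hvp']
  have wsum : ∑ c : Bool, w c c = e0 := by
    rw [Fintype.sum_bool]
    show q + p = e0
    rw [add_comm, hpq1]
  refine ⟨fun s t => E s.1 i0 * w s.2 t.2 * E i0 t.1, ⟨?_, ?_, ?_, ?_⟩, ?_⟩
  · rintro ⟨a, c⟩ ⟨b, d⟩ ⟨g, f⟩
    show E a i0 * w c d * E i0 b * (E b i0 * w d f * E i0 g) = E a i0 * w c f * E i0 g
    calc E a i0 * w c d * E i0 b * (E b i0 * w d f * E i0 g) =
        E a i0 * (w c d * (E i0 b * E b i0)) * w d f * E i0 g := by noncomm_ring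
      _ = E a i0 * w c d * w d f * E i0 g := by rw [hE.same, ← he0, w0]
      _ = E a i0 * (w c d * w d f) * E i0 g := by noncomm_ring
      _ = E a i0 * w c f * E i0 g := by rw [wmul, if_pos rfl]
  · rintro ⟨a, c⟩ ⟨b, d⟩ ⟨b', d'⟩ ⟨g, f⟩ hne
    show E a i0 * w c d * E i0 b * (E b' i0 * w d' f * E i0 g) = 0
    by_cases hb : b = b'
    · subst hb
      have hd : d ≠ d' := fun h => hne (by rw [h])
      calc E a i0 * w c d * E i0 b * (E b i0 * w d' f * E i0 g) =
          E a i0 * (w c d * (E i0 b * E b i0)) * w d' f * E i0 g := by noncomm_ring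
        _ = E a i0 * w c d * w d' f * E i0 g := by rw [hE.same, ← he0, w0]
        _ = E a i0 * (w c d * w d' f) * E i0 g := by noncomm_ring
        _ = 0 := by rw [wmul, if_neg hd, mul_zero, zero_mul]
    · calc E a i0 * w c d * E i0 b * (E b' i0 * w d' f * E i0 g) =
          E a i0 * w c d * (E i0 b * E b' i0) * w d' f * E i0 g := by noncomm_ring
        _ = 0 := by rw [hE.ne _ _ _ _ hb, mul_zero, zero_mul, zero_mul]
  · rintro ⟨a, c⟩ ⟨b, d⟩
    show star (E a i0 * w c d * E i0 b) = E b i0 * w d c * E i0 a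
    rw [star_mul, star_mul, hE.adj, hE.adj, wstar, mul_assoc]
  · rw [Fintype.sum_prod_type, ← hE.sum]
    refine Finset.sum_congr rfl fun a _ => ?_
    show ∑ c : Bool, E a i0 * w c c * E i0 a = E a a
    rw [← Finset.sum_mul, ← Finset.mul_sum, wsum, he0, hE.same, hE.same]
  · intro a b
    show E a b = ∑ c : Bool, E a i0 * w c c * E i0 b
    rw [← Finset.sum_mul, ← Finset.mul_sum, wsum, he0, hE.same, hE.same]

/-- an infinite chain of matrix units -/
structure IsChain {A : Type} [Ring A] [StarRing A]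
    (E : ∀ k : ℕ, (Fin k → Bool) → (Fin k → Bool) → A) : Prop where
  mu : ∀ k, IsMU (E k)
  step : ∀ k a b, E k a b = ∑ c : Bool, E (k + 1) (Fin.snoc a c) (Fin.snoc b c)

theorem exists_chain (M : TVNA) (hM : IsIIOneFactor M.N M.τ) :
    ∃ E : ∀ k : ℕ, (Fin k → Bool) → (Fin k → Bool) → M.A, IsChain E := by
  classical
  obtain ⟨E0, hE0⟩ := exists_units M hM (Fin 0 → Bool)
  have hstep : ∀ (k : ℕ) (E : {E : (Fin k → Bool) → (Fin k → Bool) → M.A // IsMU E}),
      ∃ E' : {E : (Fin (k + 1) → Bool) → (Fin (k + 1) → Bool) → M.A // IsMU E},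
        ∀ a b, E.1 a b = ∑ c : Bool, E'.1 (Fin.snoc a c) (Fin.snoc b c) := by
    rintro k ⟨E, hE⟩
    obtain ⟨E', hE', h2⟩ := exists_refine M hM E hE
    let g : (Fin (k + 1) → Bool) ≃ (Fin k → Bool) × Bool :=
      { toFun := fun s => (Fin.init s, s (Fin.last k))
        invFun := fun p => Fin.snoc p.1 p.2
        left_inv := fun s => by simp
        right_inv := fun p => by simp }
    refine ⟨⟨fun s t => E' (g s) (g t), ⟨?_, ?_, ?_, ?_⟩⟩, ?_⟩
    · intro i j l
      exact hE'.same _ _ _
    · intro i j k' l hjk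
      exact hE'.ne _ _ _ _ fun h => hjk (g.injective h)
    · intro i j
      exact hE'.adj _ _
    · rw [← hE'.sum]
      exact g.sum_comp fun s => E' s s
    · intro a b
      show E a b = _
      rw [h2]
      refine Finset.sum_congr rfl fun c _ => ?_
      show E' (a, c) (b, c) = E' (g (Fin.snoc a c)) (g (Fin.snoc b c))
      have hg : ∀ (a : Fin k → Bool) (c : Bool), g (Fin.snoc a c) = (a, c) := fun a c =>
        g.right_inv (a, c)
      rw [hg, hg]
  choose nx hnx using hstep
  let EE : ∀ k : ℕ, {E : (Fin k → Bool) → (Fin k → Bool) → M.A // IsMU E} := fun k =>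
    Nat.rec ⟨E0, hE0⟩ (fun k E => nx k E) k
  refine ⟨fun k => (EE k).1, ⟨fun k => (EE k).2, fun k a b => ?_⟩⟩
  exact hnx k (EE k) a b

section chain

variable {A : Type} [Ring A] [StarRing A] {E : ∀ k : ℕ, (Fin k → Bool) → (Fin k → Bool) → A}

theorem sum_snoc {B : Type*} [AddCommMonoid B] (k : ℕ) (f : (Fin (k + 1) → Bool) → B) :
    ∑ s, f s = ∑ s : Fin k → Bool, ∑ c : Bool, f (Fin.snoc s c) := by
  classical
  let g : (Fin k → Bool) × Bool ≃ (Fin (k + 1) → Bool) :=
    { toFun := fun p => Fin.snoc p.1 p.2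
      invFun := fun s => (Fin.init s, s (Fin.last k))
      left_inv := fun p => by simp
      right_inv := fun s => by simp }
  rw [← g.sum_comp, Fintype.sum_prod_type]
  rfl

/-- a diagonal projection does not change under refinement -/
theorem IsChain.dg_step (h : IsChain E) (k : ℕ) (S : (Fin k → Bool) → Bool) :
    dg (E k) S = dg (E (k + 1)) fun s => S (Fin.init s) := by
  unfold dg
  rw [sum_snoc]
  refine Finset.sum_congr rfl fun s _ => ?_
  have h1 : ∀ c : Bool, (Fin.init (Fin.snoc s c : Fin (k + 1) → Bool) : Fin k → Bool) = s :=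
    fun c => Fin.init_snoc (α := fun _ => Bool) c s
  simp only [h1]
  by_cases hs : S s = true
  · simp only [hs, if_true]
    exact h.step k s s
  · simp only [hs]
    simp

/-- the projection of the `k`-th tensor factor -/
def pj (E : ∀ k : ℕ, (Fin k → Bool) → (Fin k → Bool) → A) (k : ℕ) : A :=
  dg (E (k + 1)) fun s => s (Fin.last k)

theorem IsChain.pj_eq (h : IsChain E) (k K : ℕ) (hk : k < K) :
    pj E k = dg (E K) fun s => s ⟨k, hk⟩ := by
  induction K with
  | zero => omega
  | succ K ih =>
    rcases Nat.lt_or_ge k K with h1 | h1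
    · rw [ih h1, h.dg_step]
      rfl
    · have h2 : k = K := by omega
      subst h2
      rfl

end chain

end Pool.Agent.KS6_75.SOP
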