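import Mathlib
import Pool.Graph.R_pool_sql_team_seeded_f0cf7b00.H690R2.NS.Defs

/-!
# The strict order property and the tree property of the second kind

Terms, formulas, values of formulas, theories and models (`TVNA`, `Fml`, `TVNA.eval`,
`TVNA.theory`) are in the library module `H690R2/NS/Defs.lean`.
-/

set_option autoImplicit false

namespace Pool.Agent.KS6_75.SOP

open Pool.Agent.Helper278 Pool.Agent.H690R2.NS

/-- `M` is a II₁ factor. -/
def IsFactor (M : TVNA) : Prop := IsIIOneFactor M.N M.τ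

/-- `E` is an increasing sequence of unital copies of the matrix algebras `M_{2^k}(ℂ)` in the star
ring `A`, `k = 0, 1, 2, …`: the `E_k(s, t)`, where `s` and `t` are words of length `k` in the
letters `false` and `true`, are matrix units, and `E_k(s, t)` is the sum of the `E_{k+1}(s c, t c)`
over the letters `c`. -/
structure IsCARSystem {A : Type} [Ring A] [StarRing A]
    (E : ∀ k : ℕ, (Fin k → Bool) → (Fin k → Bool) → A) : Prop where
  mul_same : ∀ k s t u, E k s t * E k t u = E k s u
  mul_ne : ∀ k s t t' u, t ≠ t' → E k s t * E k t' u = 0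
  adj : ∀ k s t, star (E k s t) = E k t s
  sum : ∀ k, ∑ s, E k s s = 1
  step : ∀ k s t, E k s t = ∑ c : Bool, E (k + 1) (Fin.snoc s c) (Fin.snoc t c)

/-- `M` contains a unital copy of the CAR algebra (the union of an increasing sequence of unital
matrix algebras `M_{2^k}(ℂ)`). -/
def ContainsCAR (M : TVNA) : Prop :=
  ∃ E : ∀ k : ℕ, (Fin k → Bool) → (Fin k → Bool) → M.A, IsCARSystem E

/-- `c` is a tuple of elements of `M` of the sorts `D_{r_1}, …, D_{r_k}`. -/
def InSorts (M : TVNA) {k : ℕ} (r : Fin k → ℕ+) (c : Fin k → M.A) : Prop :=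
  ∀ j, c j ∈ M.ball (r j)

/-- The theory `T` has the strict order property: for some formula `φ(x, y)` of continuous logic
there are a model `M` of `T`, tuples `b_0, b_1, …` and `a_0, a_1, …` in `M` and a number `ε > 0`
such that `φ(c, b_i) ≤ φ(c, b_j)` for all `i < j` and all `c` in `M` of the sorts of `x`, and
`φ(a_i, b_i) + ε ≤ φ(a_i, b_j)` for all `i < j`. -/
def HasSOP (T : Set (Fml Empty 0)) : Prop :=
  ∃ (k l : ℕ) (φ : Fml (Fin k ⊕ Fin l) 0) (r : Fin k → ℕ+) (s : Fin l → ℕ+) (M : TVNA),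
    T ⊆ M.theory ∧ ∃ (a : ℕ → Fin k → M.A) (b : ℕ → Fin l → M.A) (ε : ℝ), 0 < ε ∧
      (∀ i, InSorts M r (a i)) ∧ (∀ i, InSorts M s (b i)) ∧
      (∀ i j, i < j → ∀ c : Fin k → M.A, InSorts M r c →
        M.eval φ (Sum.elim c (b i)) ≤ M.eval φ (Sum.elim c (b j))) ∧
      ∀ i j, i < j → M.eval φ (Sum.elim (a i) (b i)) + ε ≤ M.eval φ (Sum.elim (a i) (b j))

/-- The theory `T` has the tree property of the second kind: for some formula `φ(x, y)` there are a
model `M` of `T`, an array `(b_{i,j})` of tuples in `M` and a number `ε > 0` such that in every row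
any two of the conditions `φ(x, b_{i,j}) < ε` exclude each other, while for every function `η` the
conditions `φ(x, b_{i,η(i)}) = 0` are finitely satisfiable in `M` (so that they have a common
solution in every `ℵ₁`-saturated elementary extension of `M`). -/
def HasTP2 (T : Set (Fml Empty 0)) : Prop :=
  ∃ (k l : ℕ) (φ : Fml (Fin k ⊕ Fin l) 0) (r : Fin k → ℕ+) (s : Fin l → ℕ+) (M : TVNA),
    T ⊆ M.theory ∧ ∃ (b : ℕ → ℕ → Fin l → M.A) (ε : ℝ), 0 < ε ∧
      (∀ i j, InSorts M s (b i j)) ∧
      (∀ i j j', j ≠ j' → ∀ c : Fin k → M.A, InSorts M r c →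
        ε ≤ M.eval φ (Sum.elim c (b i j)) ∨ ε ≤ M.eval φ (Sum.elim c (b i j'))) ∧
      ∀ (η : ℕ → ℕ) (n : ℕ), ∃ c : Fin k → M.A, InSorts M r c ∧
        ∀ i < n, M.eval φ (Sum.elim c (b i (η i))) = 0

end Pool.Agent.KS6_75.SOP
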