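import Mathlib
import Pool.Agent.KS6_75.SOP.Chain
import Pool.Graph.R_pool_sql_team_seeded_f0cf7b00.H690R2.NS.Main

/-!
# Not simple

The proof of the library (`R_pool_sql_team_seeded_f0cf7b00/H690R2/NS/Main.lean`), for tracial von
Neumann algebras that contain matrix algebras of all sizes.
-/

set_option autoImplicit false

open scoped InnerProductSpace ComplexOrder Topology BoundedContinuousFunction
open Filter

namespace Pool.Agent.KS6_75.SOP

open Pool.Agent.Helper278 Pool.Agent.H690R2.NS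

/-- A tracial von Neumann algebra that contains unital copies of all the matrix algebras
`M_{2^k}(ℂ)` does not have a simple theory. The proof is the one of the library for II₁ factors. -/
theorem not_simple_of_units (R : TVNA)
    (hR : ∀ n : ℕ, ∃ E : (Leg n → Bool) → (Leg n → Bool) → R.A, IsMU E) :
    ¬ IsSimple R.theory := by
  classical
  intro hs
  set U : Ultrafilter ℕ := Filter.hyperfilter ℕ with hUdef
  have hU : (U : Filter ℕ) ≤ atTop := by
    rw [hUdef, ← Nat.cofinite_eq_atTop]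
    exact Filter.hyperfilter_le_cofinite
  have hU' : ∀ n, {n} ∉ U := fun n => Filter.notMem_hyperfilter_of_finite (Set.finite_singleton n)
  obtain ⟨P, π, h⟩ := exists_UP R U hU'
  choose E hE using hR
  set p : J → P.A := pr E π hE with hp
  have hd : ∀ c c' : J, c ≠ c' → norm2 P.τ (p c - p c') = Real.sqrt (1 / 2) :=
    fun c c' hc => pr_dist h hU hE c c' hc
  have h12 : (0 : ℝ) < Real.sqrt (1 / 2) := Real.sqrt_pos.2 (by norm_num)
  have h0 : norm2 P.τ (0 : P.A) = 0 := by
    rw [P.norm2_eq]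
    exact (trAlg P.T).n2_zero
  have hinj : Function.Injective p := by
    intro c c' hcc
    by_contra hne
    have := hd c c' hne
    rw [hcc, sub_self, h0] at this
    exact h12.ne this
  -- the flip
  let σ : ∀ n, Equiv.Perm (Leg n) := fun n =>
    Equiv.prodCongr (Equiv.swap (0 : Fin 3) 1) (Equiv.refl _)
  set u : P.A := un E π hE σ with hu
  have hu1 : u ∈ P.ball 1 := un_mem h hE σ
  have hu2 : u * star u = 1 := un_mul_star h hE σ
  have hu3 : ∀ α : ℕ → Bool, u * p (0, α) = p (1, α) * u := by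
    intro α
    refine un_mul_pr h hE σ _ _ (Eventually.of_forall fun n => ?_)
    show (Equiv.swap (0 : Fin 3) 1 0, _) = _
    rw [Equiv.swap_apply_left]
    rfl
  -- the parameters
  let B : Set P.A := {x | ∃ c : J, (c.1 = 0 ∨ c.1 = 1) ∧ p c = x}
  have hid : IsElem (M := P) (N := P) id := fun V φ a => rfl
  obtain ⟨A, hAB, hsep, hnd⟩ := hs P (h.theory.ge) B P id hid 1 (fun _ => 1) (fun _ => u)
    (fun _ => hu1)
  apply hnd
  -- `A` is countable
  have hAc : A.Countable := by
    obtain ⟨D, hDA, hDc, hD⟩ := hsep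
    refine hDc.mono fun x hx => ?_
    obtain ⟨y, hy, hxy⟩ := hD x hx (Real.sqrt (1 / 2)) h12
    obtain ⟨c, -, hc⟩ := hAB hx
    obtain ⟨c', -, hc'⟩ := hAB (hDA hy)
    by_cases hcc : c = c'
    · rw [← hc, hcc, hc']
      exact hy
    · rw [← hc, ← hc', hd c c' hcc] at hxy
      exact absurd hxy (lt_irrefl _)
  obtain ⟨α, hα⟩ : ∃ α : ℕ → Bool, p (1, α) ∉ A := by
    by_contra hcon
    push Not at hcon
    have h1 : (Set.univ : Set (ℕ → Bool)).Countable := by
      have h2 : (Set.univ : Set (ℕ → Bool)) = (fun α : ℕ → Bool => p (1, α)) ⁻¹' A := by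
        ext α
        exact ⟨fun _ => hcon α, fun _ => trivial⟩
      rw [h2]
      refine hAc.preimage_of_injOn ?_
      intro α _ β _ hαβ
      exact congrArg (fun c : J => c.2) (hinj hαβ)
    have h3 : Uncountable (ℕ → Bool) := by
      rw [← Cardinal.aleph0_lt_mk_iff]
      simpa using Cardinal.aleph0_lt_continuum
    exact (not_countable_iff.2 h3) (Set.countable_univ_iff.1 h1)
  set c0 : J := (1, α) with hc0
  have hidx : ∀ x : B, ∃ c : J, (c.1 = 0 ∨ c.1 = 1) ∧ p c = x := fun x => x.2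
  choose idx hidx1 hidx2 using hidx
  -- the replacements
  let β : ℕ → (ℕ → Bool) := fun i m => decide (m = i)
  have hβ : Function.Injective β := by
    intro i i' hii
    have h1 := congrFun hii i
    simpa [β] using h1
  let r : ℕ → J := fun i => if i = 0 then c0 else (2, β i)
  have hr0 : r 0 = c0 := if_pos rfl
  have hr1 : ∀ i, i ≠ 0 → r i = (2, β i) := fun i hi => if_neg hi
  have hrinj : ∀ i i', r i = r i' ↔ i = i' := by
    intro i i'
    constructor
    · intro hii
      by_cases hi : i = 0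
      · by_cases hi' : i' = 0
        · rw [hi, hi']
        · rw [hi, hr0, hr1 i' hi'] at hii
          have : (1 : Fin 3) = 2 := congrArg (fun c : J => c.1) hii
          exact absurd this (by decide)
      · by_cases hi' : i' = 0
        · rw [hi', hr0, hr1 i hi] at hii
          have : (2 : Fin 3) = 1 := congrArg (fun c : J => c.1) hii
          exact absurd this (by decide)
        · rw [hr1 i hi, hr1 i' hi'] at hii
          exact hβ (congrArg (fun c : J => c.2) hii)
    · rintro rfl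
      rfl
  have hrne : ∀ (i : ℕ) (c : J), (c.1 = 0 ∨ c.1 = 1) → c ≠ c0 → r i ≠ c := by
    intro i c hc hcc hh
    by_cases hi : i = 0
    · rw [hi, hr0] at hh
      exact hcc hh.symm
    · rw [hr1 i hi] at hh
      rw [← hh] at hc
      rcases hc with hc | hc
      · exact absurd (show (2 : Fin 3) = 0 from hc) (by decide)
      · exact absurd (show (2 : Fin 3) = 1 from hc) (by decide)
  let io : ℕ → J → J := fun i c => if c = c0 then r i else c
  have hio1 : ∀ i, io i c0 = r i := fun i => if_pos rfl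
  have hio2 : ∀ i c, c ≠ c0 → io i c = c := fun i c hc => if_neg hc
  have hio : ∀ (i i' j j' : ℕ) (c c' : J), (c.1 = 0 ∨ c.1 = 1) → (c'.1 = 0 ∨ c'.1 = 1) →
      (i = i' ↔ j = j') → (io i c = io i' c' ↔ io j c = io j' c') := by
    intro i i' j j' c c' hc hc' hij
    by_cases h1 : c = c0
    · by_cases h2 : c' = c0
      · rw [h1, h2, hio1, hio1, hio1, hio1, hrinj, hrinj, hij]
      · rw [h1, hio1, hio1, hio2 _ _ h2, hio2 _ _ h2]
        exact ⟨fun hh => absurd hh (hrne _ _ hc' h2), fun hh => absurd hh (hrne _ _ hc' h2)⟩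
    · by_cases h2 : c' = c0
      · rw [h2, hio1, hio1, hio2 _ _ h1, hio2 _ _ h1]
        exact ⟨fun hh => absurd hh.symm (hrne _ _ hc h1), fun hh => absurd hh.symm (hrne _ _ hc h1)⟩
      · rw [hio2 _ _ h1, hio2 _ _ h1, hio2 _ _ h2, hio2 _ _ h2]
  refine ⟨P, id, fun i x => p (io i (idx x)), hid, ?_, ?_, ?_⟩
  · funext x
    show p (io 0 (idx x)) = x
    by_cases hx : idx x = c0
    · rw [hx, hio1, hr0, ← hx, hidx2]
    · rw [hio2 _ _ hx, hidx2]
  · -- indiscernibility
    intro n φ s t hs ht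
    obtain ⟨S, hS, hsupp⟩ := φ.supp
    have hpar : ∀ a : (id '' A : Set P.A), ∃ c : J, (c.1 = 0 ∨ c.1 = 1) ∧ c ≠ c0 ∧ p c = a := by
      rintro ⟨_, a, ha, rfl⟩
      obtain ⟨c, hc1, hc2⟩ := hAB ha
      refine ⟨c, hc1, fun hcc => hα ?_, hc2⟩
      rw [← hcc, hc2]
      exact ha
    choose ka hka1 hka2 hka3 using hpar
    let κ : (ℕ → ℕ) → ((id '' A : Set P.A) ⊕ Fin n × B) → J := fun _ => Sum.elim ka fun _ => c0
    let kap : (Fin n → ℕ) → ((id '' A : Set P.A) ⊕ Fin n × B) → J := fun s =>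
      Sum.elim ka fun v => io (s v.1) (idx v.2)
    have hpat : ∀ v v', kap s v = kap s v' ↔ kap t v = kap t v' := by
      have hst : ∀ i i' : Fin n, (s i = s i' ↔ t i = t i') := fun i i' =>
        ⟨fun hh => by rw [hs.injective hh], fun hh => by rw [ht.injective hh]⟩
      rintro (v | ⟨i, v⟩) (v' | ⟨i', v'⟩)
      · exact Iff.rfl
      · show ka v = io (s i') (idx v') ↔ ka v = io (t i') (idx v')
        rw [← hio2 (s i') (ka v) (hka2 v)]
        have := hio (s i') (s i') (t i') (t i') (ka v) (idx v') (hka1 v) (hidx1 v')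
          ⟨fun _ => rfl, fun _ => rfl⟩
        rw [hio2 (t i') (ka v) (hka2 v)] at this
        rw [this, hio2 (s i') (ka v) (hka2 v)]
      · show io (s i) (idx v) = ka v' ↔ io (t i) (idx v) = ka v'
        have := hio (s i) (s i) (t i) (t i) (idx v) (ka v') (hidx1 v) (hka1 v')
          ⟨fun _ => rfl, fun _ => rfl⟩
        rw [hio2 (t i) (ka v') (hka2 v'), hio2 (s i) (ka v') (hka2 v')] at this
        exact this
      · exact hio _ _ _ _ _ _ (hidx1 v) (hidx1 v') (hst i i')
    obtain ⟨w, hw1, hw2, hw⟩ := exists_un h hU hE hS (kap s) (kap t) fun v _ v' _ => hpat v v'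
    have e1 : ∀ s : Fin n → ℕ, (Sum.elim (fun a : (id '' A : Set P.A) => (a : P.A))
        fun v : Fin n × B => p (io (s v.1) (idx v.2))) = p ∘ kap s := by
      intro s
      funext v
      rcases v with v | v
      · exact (hka3 v).symm
      · rfl
    rw [e1 s, e1 t]
    have e2 := (isIso_conj w hw1 hw2).eval φ (p ∘ kap s)
    rw [← e2]
    exact hsupp P _ _ _ hw
  · -- inconsistency
    rintro P' g hg ⟨x, hx⟩
    have hB0 : p (0, α) ∈ B := ⟨_, Or.inl rfl, rfl⟩
    have hB1 : p (1, α) ∈ B := ⟨_, Or.inr rfl, rfl⟩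
    let φ1 : Fml (B ⊕ Fin 1) 0 := Fml.dist
      (Tm.mul (Tm.var (Sum.inl (Sum.inr 0))) (Tm.var (Sum.inl (Sum.inl ⟨_, hB0⟩))))
      (Tm.mul (Tm.var (Sum.inl (Sum.inl ⟨_, hB1⟩))) (Tm.var (Sum.inl (Sum.inr 0))))
    let φ2 : Fml (B ⊕ Fin 1) 0 := Fml.dist
      (Tm.mul (Tm.var (Sum.inl (Sum.inr 0))) (Tm.adj (Tm.var (Sum.inl (Sum.inr 0))))) Tm.one
    have hφ1 : φ1 ∈ typeOver (M := P) (N := P) id B (fun _ : Fin 1 => u) := by
      show norm2 P.τ (u * p (0, α) - p (1, α) * u) = 0
      rw [hu3, sub_self, h0]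
    have hφ2 : φ2 ∈ typeOver (M := P) (N := P) id B (fun _ : Fin 1 => u) := by
      show norm2 P.τ (u * star u - 1) = 0
      rw [hu2, sub_self, h0]
    have hz : ∀ y : P'.A, norm2 P'.τ y = 0 → y = 0 := by
      intro y hy
      apply P'.trace.faithful
      have h1 := (trAlg P'.T).n2_sq y
      have h2 : n2 P'.T.τ y = 0 := hy
      rw [h2] at h1
      apply Complex.ext
      · have : (P'.τ (star y * y)).re = 0 ^ 2 := h1.symm
        rw [this]
        simp
      · exact (trAlg P'.T).im_zero y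
    have hi0 : idx ⟨_, hB0⟩ = (0, α) := hinj (hidx2 _)
    have hi1 : idx ⟨_, hB1⟩ = c0 := hinj (hidx2 _)
    have hne : ((0, α) : J) ≠ c0 := by
      intro hh
      have : (0 : Fin 3) = 1 := congrArg (fun c : J => c.1) hh
      exact absurd this (by decide)
    have key : ∀ i, g (p (r i)) = x 0 * g (p (0, α)) * star (x 0) := by
      intro i
      have h1 := hz _ ((hx i).2 φ1 hφ1)
      have h2 := hz _ ((hx i).2 φ2 hφ2)
      have h1' : x 0 * g (p (io i (idx ⟨_, hB0⟩))) - g (p (io i (idx ⟨_, hB1⟩))) * x 0 = 0 := h1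
      have h2' : x 0 * star (x 0) - 1 = 0 := h2
      rw [hi0, hi1, hio1, hio2 _ _ hne, sub_eq_zero] at h1'
      rw [sub_eq_zero] at h2'
      rw [h1', mul_assoc, h2', mul_one]
    have h01 : g (p (r 0)) = g (p (r 1)) := by rw [key 0, key 1]
    have h5 := hg (Fin 2) (Fml.dist (Tm.var (Sum.inl 0)) (Tm.var (Sum.inl 1)))
      ![p (r 0), p (r 1)]
    have h6 : norm2 P'.τ (g (p (r 0)) - g (p (r 1))) = norm2 P.τ (p (r 0) - p (r 1)) := h5
    have h7 : norm2 P'.τ (0 : P'.A) = 0 := by
      rw [P'.norm2_eq]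
      exact (trAlg P'.T).n2_zero
    rw [h01, sub_self, h7, hd (r 0) (r 1) (fun hh => absurd ((hrinj 0 1).1 hh) (by decide))] at h6
    exact h12.ne h6

/-- the case of a chain -/
theorem not_simple_of_chain (R : TVNA) (E : ∀ k : ℕ, (Fin k → Bool) → (Fin k → Bool) → R.A)
    (h : IsChain E) : ¬ IsSimple R.theory := by
  refine not_simple_of_units R fun n => ?_
  let g : Leg n ≃ Fin (Fintype.card (Leg n)) := Fintype.equivFin _
  let g' : (Leg n → Bool) ≃ (Fin (Fintype.card (Leg n)) → Bool) :=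
    Equiv.arrowCongr g (Equiv.refl _)
  have hmu := h.mu (Fintype.card (Leg n))
  refine ⟨fun s t => E _ (g' s) (g' t), ⟨?_, ?_, ?_, ?_⟩⟩
  · intro i j l
    exact hmu.same _ _ _
  · intro i j k' l hjk
    exact hmu.ne _ _ _ _ fun h => hjk (g'.injective h)
  · intro i j
    exact hmu.adj _ _
  · rw [← hmu.sum]
    exact g'.sum_comp fun s => E _ s s

end Pool.Agent.KS6_75.SOP
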