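import Mathlib
import Pool.Agent.KS6_75.SOP.Chain

/-!
# The star homomorphism given by a system of matrix units
-/

set_option autoImplicit false
set_option linter.unusedSectionVars false

namespace Pool.Agent.KS6_75.SOP

open Finset Pool.Agent.Helper278 Pool.Agent.H690R2.NS

variable {A : Type} [Ring A] [StarRing A] [Algebra ℂ A] [StarModule ℂ A]
variable {ι : Type} [Fintype ι] [DecidableEq ι] {n : ℕ} [NeZero n]

/-- the homomorphism -/
noncomputable def rho (E : ι → ι → A) (hE : IsMU E) (g : ZMod n ≃ ι) :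
    Matrix (ZMod n) (ZMod n) ℂ →⋆ₐ[ℂ] A where
  toFun m := ∑ a, ∑ b, m a b • E (g a) (g b)
  map_one' := by
    rw [← hE.sum, ← g.sum_comp]
    refine Finset.sum_congr rfl fun a _ => ?_
    rw [Finset.sum_eq_single a]
    · rw [Matrix.one_apply_eq, one_smul]
    · intro b _ hb
      rw [Matrix.one_apply_ne (Ne.symm hb), zero_smul]
    · intro ha
      exact absurd (Finset.mem_univ a) ha
  map_mul' m m' := by
    have h1 : (∑ a, ∑ c, m a c • E (g a) (g c)) * (∑ d, ∑ b, m' d b • E (g d) (g b)) =
        ∑ a, ∑ c, ∑ d, ∑ b, (m a c • E (g a) (g c)) * (m' d b • E (g d) (g b)) := by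
      rw [Finset.sum_mul]
      refine Finset.sum_congr rfl fun a _ => ?_
      rw [Finset.sum_mul]
      refine Finset.sum_congr rfl fun c _ => ?_
      rw [Finset.mul_sum]
      refine Finset.sum_congr rfl fun d _ => ?_
      rw [Finset.mul_sum]
    rw [h1]
    refine Finset.sum_congr rfl fun a _ => ?_
    have h2 : ∀ c : ZMod n, ∑ d, ∑ b, (m a c • E (g a) (g c)) * (m' d b • E (g d) (g b)) =
        ∑ b, (m a c * m' c b) • E (g a) (g b) := by
      intro c
      rw [Finset.sum_eq_single c]
      · refine Finset.sum_congr rfl fun b _ => ?_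
        rw [smul_mul_smul_comm, hE.same]
      · intro d _ hd
        refine Finset.sum_eq_zero fun b _ => ?_
        rw [smul_mul_smul_comm, hE.ne _ _ _ _ (fun h => hd (g.injective h).symm), smul_zero]
      · intro hc
        exact absurd (Finset.mem_univ c) hc
    rw [Finset.sum_congr rfl fun c _ => h2 c, Finset.sum_comm]
    refine Finset.sum_congr rfl fun b _ => ?_
    rw [Matrix.mul_apply, Finset.sum_smul]
  map_zero' := by simp
  map_add' m m' := by
    rw [← Finset.sum_add_distrib]
    refine Finset.sum_congr rfl fun a _ => ?_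
    rw [← Finset.sum_add_distrib]
    refine Finset.sum_congr rfl fun b _ => ?_
    rw [Matrix.add_apply, add_smul]
  commutes' c := by
    have h1 : (algebraMap ℂ A) c = c • (1 : A) := Algebra.algebraMap_eq_smul_one c
    rw [h1, ← hE.sum, ← g.sum_comp, Finset.smul_sum]
    refine Finset.sum_congr rfl fun a _ => ?_
    rw [Finset.sum_eq_single a]
    · rw [Matrix.algebraMap_matrix_apply, if_pos rfl]
      rfl
    · intro b _ hb
      rw [Matrix.algebraMap_matrix_apply, if_neg (Ne.symm hb), zero_smul]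
    · intro ha
      exact absurd (Finset.mem_univ a) ha
  map_star' m := by
    rw [star_sum, Finset.sum_comm]
    refine Finset.sum_congr rfl fun a _ => ?_
    rw [star_sum]
    refine Finset.sum_congr rfl fun b _ => ?_
    rw [star_smul, hE.adj, Matrix.star_apply]

theorem rho_apply (E : ι → ι → A) (hE : IsMU E) (g : ZMod n ≃ ι)
    (m : Matrix (ZMod n) (ZMod n) ℂ) : rho E hE g m = ∑ a, ∑ b, m a b • E (g a) (g b) := rfl

theorem rho_single (E : ι → ι → A) (hE : IsMU E) (g : ZMod n ≃ ι) (a b : ZMod n) :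
    rho E hE g (Matrix.single a b 1) = E (g a) (g b) := by
  rw [rho_apply, Finset.sum_eq_single a, Finset.sum_eq_single b]
  · rw [Matrix.single_apply_same, one_smul]
  · intro c _ hc
    rw [Matrix.single_apply_of_ne _ _ _ _ _ (by tauto), zero_smul]
  · intro hb
    exact absurd (Finset.mem_univ b) hb
  · intro c _ hc
    refine Finset.sum_eq_zero fun d _ => ?_
    rw [Matrix.single_apply_of_ne _ _ _ _ _ (by tauto), zero_smul]
  · intro ha
    exact absurd (Finset.mem_univ a) ha

/-- `y` commutes with all matrix units -/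
def CU (E : ι → ι → A) (y : A) : Prop := ∀ s t, y * E s t = E s t * y

theorem CU.rho {E : ι → ι → A} {y : A} (h : CU E y) (hE : IsMU E) (g : ZMod n ≃ ι)
    (m : Matrix (ZMod n) (ZMod n) ℂ) : y * rho E hE g m = SOP.rho E hE g m * y := by
  rw [rho_apply, Finset.mul_sum, Finset.sum_mul]
  refine Finset.sum_congr rfl fun a _ => ?_
  rw [Finset.mul_sum, Finset.sum_mul]
  refine Finset.sum_congr rfl fun b _ => ?_
  rw [mul_smul_comm, smul_mul_assoc, h]

theorem cu_of_comm {E : ι → ι → A} (hE : IsMU E) (g : ZMod n ≃ ι) {y : A}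
    (hX : y * rho E hE g (Xm n) = rho E hE g (Xm n) * y)
    (hZ : y * rho E hE g (Zm n) = rho E hE g (Zm n) * y) : CU E y := by
  intro s t
  have h1 := comm_all (rho E hE g) y hX hZ (Matrix.single (g.symm s) (g.symm t) 1)
  rwa [rho_single, Equiv.apply_symm_apply, Equiv.apply_symm_apply] at h1

theorem IsChain.cu_step {E : ∀ k : ℕ, (Fin k → Bool) → (Fin k → Bool) → A} (h : IsChain E)
    {k : ℕ} {y : A} (hy : CU (E (k + 1)) y) : CU (E k) y := by
  intro a b
  rw [h.step, Finset.mul_sum, Finset.sum_mul]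
  exact Finset.sum_congr rfl fun c _ => hy _ _

theorem IsChain.cu_le {E : ∀ k : ℕ, (Fin k → Bool) → (Fin k → Bool) → A} (h : IsChain E)
    {k K : ℕ} (hk : k ≤ K) {y : A} (hy : CU (E K) y) : CU (E k) y := by
  induction K with
  | zero =>
    obtain rfl : k = 0 := by omega
    exact hy
  | succ K ih =>
    rcases Nat.lt_or_ge k (K + 1) with h1 | h1
    · exact ih (by omega) (h.cu_step hy)
    · obtain rfl : k = K + 1 := by omega
      exact hy

/-- the symmetry `2 p - 1` of the `k`-th tensor factor -/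
def sy (E : ∀ k : ℕ, (Fin k → Bool) → (Fin k → Bool) → A) (k : ℕ) : A := pj E k + pj E k - 1

theorem IsChain.pj_idem {E : ∀ k : ℕ, (Fin k → Bool) → (Fin k → Bool) → A} (h : IsChain E)
    (k : ℕ) : pj E k * pj E k = pj E k := (h.mu _).dg_idem _

theorem IsChain.pj_star {E : ∀ k : ℕ, (Fin k → Bool) → (Fin k → Bool) → A} (h : IsChain E)
    (k : ℕ) : star (pj E k) = pj E k := (h.mu _).dg_star _

theorem IsChain.sy_star {E : ∀ k : ℕ, (Fin k → Bool) → (Fin k → Bool) → A} (h : IsChain E)
    (k : ℕ) : star (sy E k) = sy E k := by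
  unfold sy
  rw [star_sub, star_add, star_one, h.pj_star]

theorem IsChain.sy_sq {E : ∀ k : ℕ, (Fin k → Bool) → (Fin k → Bool) → A} (h : IsChain E)
    (k : ℕ) : sy E k * sy E k = 1 := by
  unfold sy
  have e1 : (pj E k + pj E k - 1) * (pj E k + pj E k - 1) =
      4 * (pj E k * pj E k) - 4 * pj E k + 1 := by noncomm_ring
  rw [e1, h.pj_idem]
  abel

theorem dg_mul_unit {E : ι → ι → A} (hE : IsMU E) (S : ι → Bool) (s t : ι) :
    dg E S * E s t = if S s then E s t else 0 := by
  unfold dg
  rw [Finset.sum_mul, Finset.sum_eq_single s]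
  · split_ifs
    · rw [hE.same]
    · rw [zero_mul]
  · intro u _ hu
    split_ifs
    · exact hE.ne _ _ _ _ hu
    · rw [zero_mul]
  · intro hs
    exact absurd (Finset.mem_univ s) hs

theorem unit_mul_dg {E : ι → ι → A} (hE : IsMU E) (S : ι → Bool) (s t : ι) :
    E s t * dg E S = if S t then E s t else 0 := by
  unfold dg
  rw [Finset.mul_sum, Finset.sum_eq_single t]
  · split_ifs
    · rw [hE.same]
    · rw [mul_zero]
  · intro u _ hu
    split_ifs
    · exact hE.ne _ _ _ _ (Ne.symm hu)
    · rw [mul_zero]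
  · intro hs
    exact absurd (Finset.mem_univ t) hs

/-- the `k`-th symmetry commutes with the matrix units of level `k` -/
theorem IsChain.sy_cu {E : ∀ k : ℕ, (Fin k → Bool) → (Fin k → Bool) → A} (h : IsChain E)
    (k : ℕ) : CU (E k) (sy E k) := by
  intro s t
  have h1 : pj E k * E k s t = E k s t * pj E k := by
    rw [h.step, Finset.mul_sum, Finset.sum_mul]
    refine Finset.sum_congr rfl fun c _ => ?_
    unfold pj
    rw [dg_mul_unit (h.mu _), unit_mul_dg (h.mu _), Fin.snoc_last, Fin.snoc_last]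
  unfold sy
  rw [sub_mul, add_mul, mul_sub, mul_add, h1, one_mul, mul_one]

/-- the `k`-th symmetry is orthogonal to the commutant of the matrix units of any higher level -/
theorem IsChain.sy_orth {E : ∀ k : ℕ, (Fin k → Bool) → (Fin k → Bool) → A} (h : IsChain E)
    (τ : A →ₗ[ℂ] ℂ) (hτ : ∀ x y, τ (x * y) = τ (y * x)) (k K : ℕ) (hk : k < K) (y : A)
    (hy : CU (E K) y) : τ (sy E k * y) = 0 := by
  have hmu := h.mu K
  have h1 : ∀ s t, τ (E K s s * y) = τ (E K t t * y) := by
    intro s t
    calc τ (E K s s * y) = τ (E K s t * (E K t s * y)) := by rw [← mul_assoc, hmu.same]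
      _ = τ (E K s t * (y * E K t s)) := by rw [hy t s]
      _ = τ (y * E K t s * E K s t) := hτ _ _
      _ = τ (y * E K t t) := by rw [mul_assoc, hmu.same]
      _ = τ (E K t t * y) := hτ _ _
  have h2 : sy E k = ∑ s : Fin K → Bool, (if s ⟨k, hk⟩ then (1 : ℂ) else -1) • E K s s := by
    unfold sy
    rw [h.pj_eq k K hk, ← hmu.sum]
    unfold dg
    rw [← Finset.sum_add_distrib, ← Finset.sum_sub_distrib]
    refine Finset.sum_congr rfl fun s _ => ?_
    by_cases hs : s ⟨k, hk⟩ = true
    · rw [if_pos hs, if_pos hs, one_smul]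
      abel
    · rw [if_neg hs, if_neg hs, neg_smul, one_smul]
      abel
  rw [h2, Finset.sum_mul, map_sum]
  let s0 : Fin K → Bool := fun _ => true
  have h3 : ∀ s : Fin K → Bool, τ (((if s ⟨k, hk⟩ then (1 : ℂ) else -1) • E K s s) * y) =
      (if s ⟨k, hk⟩ then (1 : ℂ) else -1) * τ (E K s0 s0 * y) := by
    intro s
    rw [smul_mul_assoc, map_smul, smul_eq_mul, h1 s s0]
  rw [Finset.sum_congr rfl fun s _ => h3 s, ← Finset.sum_mul]
  have h4 : ∑ s : Fin K → Bool, (if s ⟨k, hk⟩ then (1 : ℂ) else -1) = 0 := by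
    let fl : Equiv.Perm (Fin K → Bool) :=
      { toFun := fun s => Function.update s ⟨k, hk⟩ (!s ⟨k, hk⟩)
        invFun := fun s => Function.update s ⟨k, hk⟩ (!s ⟨k, hk⟩)
        left_inv := fun s => by simp
        right_inv := fun s => by simp }
    have h5 : ∑ s : Fin K → Bool, (if s ⟨k, hk⟩ then (1 : ℂ) else -1) =
        -∑ s : Fin K → Bool, (if s ⟨k, hk⟩ then (1 : ℂ) else -1) := by
      conv_lhs => rw [← Equiv.sum_comp fl]
      rw [← Finset.sum_neg_distrib]
      refine Finset.sum_congr rfl fun s _ => ?_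
      have : (fl s) ⟨k, hk⟩ = !s ⟨k, hk⟩ := by simp [fl]
      rw [this]
      cases s ⟨k, hk⟩ <;> simp
    have h6 := eq_neg_iff_add_eq_zero.1 h5
    rw [← two_mul] at h6
    exact (mul_eq_zero.1 h6).resolve_left two_ne_zero
  rw [h4, zero_mul]

end Pool.Agent.KS6_75.SOP
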