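import Mathlib
import Pool.Agent.KS6_75.SOP.Defs
import Pool.Agent.KS6_75.SOP.Rho
import Pool.Agent.KS6_75.SOP.NotSimple

/-!
# The theory of a II₁ factor has the strict order property and TP₂
-/

set_option autoImplicit false
set_option linter.unusedSectionVars false

open scoped InnerProductSpace ComplexOrder Topology

namespace Pool.Agent.KS6_75.SOP

open Finset Pool.Agent.Helper278 Pool.Agent.H690R2.NS

/-! ### The strict order property -/

/-- the formula `inf_z (‖x - z‖₂ + 60 Σ ‖z y_i - y_i z‖₂)` -/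
def sopF : Fml (Fin 1 ⊕ Fin 3) 0 :=
  .inf 1 (.conn 4 (fun t => t 0 + 60 * (t 1 + t 2 + t 3)) (by fun_prop)
    ![.dist (.var (.inl (.inl 0))) (.var (.inr 0)),
      .dist (.mul (.var (.inr 0)) (.var (.inl (.inr 0))))
        (.mul (.var (.inl (.inr 0))) (.var (.inr 0))),
      .dist (.mul (.var (.inr 0)) (.var (.inl (.inr 1))))
        (.mul (.var (.inl (.inr 1))) (.var (.inr 0))),
      .dist (.mul (.var (.inr 0)) (.var (.inl (.inr 2))))
        (.mul (.var (.inl (.inr 2))) (.var (.inr 0)))])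

theorem sopF_eval (M : TVNA) (c : Fin 1 → M.A) (b : Fin 3 → M.A) :
    M.eval sopF (Sum.elim c b) = ⨅ z : M.ball 1, (n2 M.T.τ (c 0 - z) +
      60 * (n2 M.T.τ (z * b 0 - b 0 * z) + n2 M.T.τ (z * b 1 - b 1 * z) +
        n2 M.T.τ (z * b 2 - b 2 * z))) := rfl

section ball

variable (M : TVNA)

theorem cj_norm (u : M.A) (h1 : star u * u = 1) (h2 : u * star u = 1) (x : M.A) :
    ‖cj u x‖ = ‖x‖ := (isIso_conj u h1 h2).norm x

theorem sp_norm {n : ℕ} [NeZero n] (T : Module.End ℂ M.A) (hT : ∀ x, ‖T x‖ ≤ ‖x‖) (u : ZMod n)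
    (x : M.A) : ‖sp T u x‖ ≤ ‖x‖ := by
  have hk : ∀ (k : ℕ) (y : M.A), ‖(T ^ k) y‖ ≤ ‖y‖ := by
    intro k
    induction k with
    | zero => intro y; exact le_rfl
    | succ k ih =>
      intro y
      rw [pow_succ]
      exact (ih (T y)).trans (hT y)
  unfold sp
  rw [LinearMap.smul_apply, LinearMap.sum_apply, norm_smul, norm_inv]
  have hn : (0 : ℝ) < n := by exact_mod_cast Nat.pos_of_ne_zero (NeZero.ne n)
  have h1 : ‖∑ s : ZMod n, (ee n (-(s * u)) • zp T s) x‖ ≤ n * ‖x‖ := by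
    refine (norm_sum_le _ _).trans ?_
    have h2 : ∀ s : ZMod n, ‖(ee n (-(s * u)) • zp T s) x‖ ≤ ‖x‖ := by
      intro s
      rw [LinearMap.smul_apply, norm_smul, AddChar.norm_apply, one_mul]
      exact hk _ _
    refine (Finset.sum_le_sum fun s _ => h2 s).trans ?_
    rw [Finset.sum_const, Finset.card_univ, ZMod.card, nsmul_eq_mul]
  have h3 : ‖(n : ℂ)‖ = n := by simp
  rw [h3]
  calc (n : ℝ)⁻¹ * ‖∑ s : ZMod n, (ee n (-(s * u)) • zp T s) x‖ ≤ (n : ℝ)⁻¹ * (n * ‖x‖) :=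
        mul_le_mul_of_nonneg_left h1 (by positivity)
    _ = ‖x‖ := by field_simp

theorem ex_norm {n : ℕ} [NeZero n] {X Z D F : M.A} (r : Rel n X Z D F) (x : M.A) :
    ‖ex n X Z x‖ ≤ ‖x‖ := by
  have h1 : ex n X Z x = sp (cj X) (0 : ZMod n) (sp (cj Z) (0 : ZMod n) x) := rfl
  rw [h1]
  exact (sp_norm M _ (fun y => (cj_norm M X r.X1 r.X2 y).le) _ _).trans
    (sp_norm M _ (fun y => (cj_norm M Z r.Z1 r.Z2 y).le) _ _)

/-- The value of the formula is the distance to the relative commutant. -/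
theorem sopF_val {n : ℕ} [NeZero n] {X Z D F : M.A} (r : Rel n X Z D F)
    (hc : ∀ y : M.A, y * X = X * y → y * Z = Z * y → y * D = D * y ∧ y * F = F * y)
    (c : Fin 1 → M.A) (hcb : c 0 ∈ M.ball 1) :
    M.eval sopF (Sum.elim c ![X, D, F]) = n2 M.T.τ (c 0 - ex n X Z (c 0)) := by
  have hA := trAlg M.T
  rw [sopF_eval]
  show ⨅ z : M.ball 1, (n2 M.T.τ (c 0 - z) +
      60 * (n2 M.T.τ (z * X - X * z) + n2 M.T.τ (z * D - D * z) +
        n2 M.T.τ (z * F - F * z))) = _
  apply le_antisymm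
  · have hmem : ex n X Z (c 0) ∈ M.ball 1 := by
      rw [M.mem_ball] at hcb ⊢
      exact (ex_norm M r _).trans hcb
    refine (ciInf_le ⟨0, ?_⟩ (⟨ex n X Z (c 0), hmem⟩ : M.ball 1)).trans ?_
    · rintro _ ⟨z, rfl⟩
      have h1 := n2_nonneg M.T.τ (c 0 - z)
      have h2 := n2_nonneg M.T.τ ((z : M.A) * X - X * z)
      have h3 := n2_nonneg M.T.τ ((z : M.A) * D - D * z)
      have h4 := n2_nonneg M.T.τ ((z : M.A) * F - F * z)
      show 0 ≤ n2 M.T.τ (c 0 - z) + 60 * (n2 M.T.τ (z * X - X * z) + n2 M.T.τ (z * D - D * z) +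
        n2 M.T.τ (z * F - F * z))
      positivity
    · obtain ⟨hD, hF⟩ := hc (ex n X Z (c 0)) (r.ex_X _) (r.ex_Z _)
      show n2 M.T.τ (c 0 - ex n X Z (c 0)) +
        60 * (n2 M.T.τ (ex n X Z (c 0) * X - X * ex n X Z (c 0)) +
          n2 M.T.τ (ex n X Z (c 0) * D - D * ex n X Z (c 0)) +
          n2 M.T.τ (ex n X Z (c 0) * F - F * ex n X Z (c 0))) ≤ _
      rw [r.ex_X, hD, hF, sub_self, sub_self, sub_self, hA.n2_zero]
      simp
  · refine le_ciInf fun z => ?_
    have h1 := r.near hA (c 0) (ex n X Z (z : M.A)) (r.ex_X _) (r.ex_Z _)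
    have h2 := hA.n2_tri (c 0) (z : M.A) (ex n X Z (z : M.A))
    have h3 := r.gap hA hc (z : M.A)
    linarith

end ball

section sop

variable {M : TVNA} {E : ∀ k : ℕ, (Fin k → Bool) → (Fin k → Bool) → M.A} (h : IsChain E)

instance nz (k : ℕ) : NeZero (2 ^ (k + 1)) := ⟨by positivity⟩

/-- an enumeration of the index set -/
noncomputable def gk (k : ℕ) : ZMod (2 ^ (k + 1)) ≃ (Fin (k + 1) → Bool) :=
  Fintype.equivOfCardEq (by rw [ZMod.card, Fintype.card_fun, Fintype.card_bool, Fintype.card_fin])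

/-- the homomorphism of level `k` -/
noncomputable def rk (h : IsChain E) (k : ℕ) :
    Matrix (ZMod (2 ^ (k + 1))) (ZMod (2 ^ (k + 1))) ℂ →⋆ₐ[ℂ] M.A :=
  rho (E (k + 1)) (h.mu _) (gk k)

include h

theorem rel_k (k : ℕ) : Rel (2 ^ (k + 1)) (rk h k (Xm _)) (rk h k (Zm _)) (rk h k (Dm _))
    (rk h k (Fm _)) :=
  (rel_m ⟨2 ^ k, by ring⟩).map _

theorem comm_k (k : ℕ) (y : M.A) (hX : y * rk h k (Xm _) = rk h k (Xm _) * y)
    (hZ : y * rk h k (Zm _) = rk h k (Zm _) * y) :
    y * rk h k (Dm _) = rk h k (Dm _) * y ∧ y * rk h k (Fm _) = rk h k (Fm _) * y :=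
  ⟨comm_all _ y hX hZ _, comm_all _ y hX hZ _⟩

/-- the expectation of level `k` commutes with the matrix units of that level -/
theorem ex_cu (k : ℕ) (x : M.A) :
    CU (E (k + 1)) (ex (2 ^ (k + 1)) (rk h k (Xm _)) (rk h k (Zm _)) x) :=
  cu_of_comm (h.mu _) (gk k) ((rel_k h k).ex_X x) ((rel_k h k).ex_Z x)

theorem unitary_norm {u : M.A} (hu : star u * u = 1) : ‖u‖ ≤ 1 := by
  have h1 : ‖(1 : M.A)‖ ≤ 1 := ContinuousLinearMap.norm_id_le
  exact norm_partial_le _ _ h1 hu

end sop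

/-- **The strict order property.** -/
theorem has_sop (M : TVNA) (E : ∀ k : ℕ, (Fin k → Bool) → (Fin k → Bool) → M.A)
    (h : IsChain E) : HasSOP M.theory := by
  have hA := trAlg M.T
  have hu1 : ∀ {u : M.A}, star u * u = 1 → u ∈ M.ball 1 := by
    intro u hu
    rw [M.mem_ball]
    simpa using unitary_norm h hu
  have hval : ∀ (k : ℕ) (c : Fin 1 → M.A), c 0 ∈ M.ball 1 →
      M.eval sopF (Sum.elim c ![rk h k (Xm _), rk h k (Dm _), rk h k (Fm _)]) =
        n2 M.T.τ (c 0 - ex (2 ^ (k + 1)) (rk h k (Xm _)) (rk h k (Zm _)) (c 0)) := fun k c hc =>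
    sopF_val M (rel_k h k) (comm_k h k) c hc
  refine ⟨1, 3, sopF, fun _ => 1, fun _ => 1, M, subset_rfl, fun k _ => sy E (k + 1),
    fun k => ![rk h k (Xm _), rk h k (Dm _), rk h k (Fm _)], 1, one_pos, ?_, ?_, ?_, ?_⟩
  · intro k j
    exact hu1 (by rw [h.sy_star, h.sy_sq])
  · intro k j
    have r := rel_k h k
    fin_cases j
    · exact hu1 r.X1
    · exact hu1 r.D1
    · exact hu1 r.F1
  · intro i j hij c hc
    rw [hval i c (hc 0), hval j c (hc 0)]
    have h1 := h.cu_le (show i + 1 ≤ j + 1 by omega) (ex_cu h j (c 0))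
    exact (rel_k h i).near hA (c 0) _ (h1.rho (h.mu _) (gk i) _) (h1.rho (h.mu _) (gk i) _)
  · intro i j hij
    have hb : (fun _ : Fin 1 => sy E (i + 1)) 0 ∈ M.ball 1 := hu1 (by rw [h.sy_star, h.sy_sq])
    rw [hval i (fun _ => sy E (i + 1)) hb, hval j (fun _ => sy E (i + 1)) hb]
    have h1 : ex (2 ^ (i + 1)) (rk h i (Xm _)) (rk h i (Zm _)) (sy E (i + 1)) = sy E (i + 1) :=
      comp_zero_of_fixed _
        (cj_fix (rel_k h i).X2 ((h.sy_cu (i + 1)).rho (h.mu _) (gk i) _))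
        (cj_fix (rel_k h i).Z2 ((h.sy_cu (i + 1)).rho (h.mu _) (gk i) _))
    have h2 : ex (2 ^ (j + 1)) (rk h j (Xm _)) (rk h j (Zm _)) (sy E (i + 1)) = 0 := by
      set w := ex (2 ^ (j + 1)) (rk h j (Xm _)) (rk h j (Zm _)) (sy E (i + 1)) with hw
      have h3 : M.T.τ (sy E (i + 1) * w) = 0 :=
        h.sy_orth M.T.τ M.T.tracial (i + 1) (j + 1) (by omega) w (ex_cu h j _)
      have h4 := (rel_k h j).ex_orth hA (sy E (i + 1)) w ((rel_k h j).ex_X _) ((rel_k h j).ex_Z _)
      rw [← hw, star_sub, h.sy_star, sub_mul, map_sub, h3, zero_sub, neg_eq_zero] at h4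
      exact hA.faithful _ h4
    rw [h1, h2, sub_self, hA.n2_zero, zero_add, sub_zero]
    have h5 : n2 M.T.τ (sy E (i + 1)) = 1 := by
      unfold n2
      rw [h.sy_star, h.sy_sq, M.T.map_one, Complex.one_re, Real.sqrt_one]
    rw [h5]

/-! ### The tree property of the second kind -/

/-- the formula `‖x y_0 - y_1 x‖₂ + ‖x* x - 1‖₂` -/
def tpF : Fml (Fin 1 ⊕ Fin 2) 0 :=
  .conn 2 (fun t => t 0 + t 1) (by fun_prop)
    ![.dist (.mul (.var (.inl (.inl 0))) (.var (.inl (.inr 0))))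
        (.mul (.var (.inl (.inr 1))) (.var (.inl (.inl 0)))),
      .dist (.mul (.adj (.var (.inl (.inl 0)))) (.var (.inl (.inl 0)))) .one]

theorem tpF_eval (M : TVNA) (c : Fin 1 → M.A) (b : Fin 2 → M.A) :
    M.eval tpF (Sum.elim c b) =
      n2 M.T.τ (c 0 * b 0 - b 1 * c 0) + n2 M.T.τ (star (c 0) * c 0 - 1) := rfl

theorem n2_swap {A : Type*} [Ring A] [StarRing A] [Algebra ℂ A] [StarModule ℂ A] {τ : A →ₗ[ℂ] ℂ}
    (h : TrAlg τ) (x : A) : n2 τ (x * star x - 1) = n2 τ (star x * x - 1) := by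
  unfold n2
  congr 2
  have e1 : star (x * star x - 1) * (x * star x - 1) =
      x * (star x * x * star x) - x * star x - x * star x + 1 := by
    rw [star_sub, star_mul, star_star, star_one]
    noncomm_ring
  have e2 : star (star x * x - 1) * (star x * x - 1) =
      star x * x * star x * x - star x * x - star x * x + 1 := by
    rw [star_sub, star_mul, star_star, star_one]
    noncomm_ring
  rw [e1, e2, map_add, map_add, map_sub, map_sub, map_sub, map_sub,
    h.comm x (star x * x * star x), h.comm x (star x)]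

/-- **The tree property of the second kind.** -/
theorem has_tp2 (M : TVNA) (E : ∀ k : ℕ, (Fin k → Bool) → (Fin k → Bool) → M.A)
    (h : IsChain E) : HasTP2 M.theory := by
  have hA := trAlg M.T
  have hpb : ∀ k, pj E k ∈ M.ball 1 := by
    intro k
    rw [M.mem_ball]
    simpa using norm_proj_le _ (h.pj_star k) (h.pj_idem k)
  refine ⟨1, 2, tpF, fun _ => 1, fun _ => 1, M, subset_rfl,
    fun i j => ![pj E (Nat.pair i 0), pj E (Nat.pair i (j + 1))], 1 / 6, by norm_num, ?_, ?_, ?_⟩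
  · intro i j t
    fin_cases t
    · exact hpb _
    · exact hpb _
  · intro i j j' hjj c hc
    by_contra hcon
    push Not at hcon
    obtain ⟨h1, h2⟩ := hcon
    rw [tpF_eval] at h1 h2
    set x := c 0 with hx
    set p := pj E (Nat.pair i 0) with hp
    set q := pj E (Nat.pair i (j + 1)) with hq
    set q' := pj E (Nat.pair i (j' + 1)) with hq'
    have h1' : n2 M.T.τ (x * p - q * x) + n2 M.T.τ (star x * x - 1) < 1 / 6 := h1
    have h2' : n2 M.T.τ (x * p - q' * x) + n2 M.T.τ (star x * x - 1) < 1 / 6 := h2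
    -- the distance of `q` and `q'`
    have hd : n2 M.T.τ (q - q') = Real.sqrt (1 / 2) := by
      have hne : Nat.pair i (j + 1) ≠ Nat.pair i (j' + 1) := by
        intro heq
        have := (Nat.pair_eq_pair.1 heq).2
        omega
      set K := max (Nat.pair i (j + 1)) (Nat.pair i (j' + 1)) + 1 with hK
      have hk1 : Nat.pair i (j + 1) < K := by omega
      have hk2 : Nat.pair i (j' + 1) < K := by omega
      rw [hq, hq', h.pj_eq _ K hk1, h.pj_eq _ K hk2]
      exact dist_legs M (h.mu K) _ _ fun he => hne (congrArg Fin.val he)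
    have hxn : ‖x‖ ≤ 1 := by
      have := hc 0
      rw [M.mem_ball] at this
      simpa using this
    have hxs : ‖star x‖ ≤ 1 := by
      have : ‖((star x : M.A) : M.H →L[ℂ] M.H)‖ = ‖(x : M.H →L[ℂ] M.H)‖ := norm_star _
      exact this.le.trans hxn
    have hqn : ‖q‖ ≤ 1 := norm_proj_le _ (h.pj_star _) (h.pj_idem _)
    have hqn' : ‖q'‖ ≤ 1 := norm_proj_le _ (h.pj_star _) (h.pj_idem _)
    have e1 : q - q' = (q - q') * x * star x - (q - q') * (x * star x - 1) := by noncomm_ring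
    have b1 : n2 M.T.τ ((q - q') * x * star x) ≤ n2 M.T.τ ((q - q') * x) := by
      have := n2_mul_le' M.T ((q - q') * x) (star x)
      have h0 := n2_nonneg M.T.τ ((q - q') * x)
      calc _ ≤ _ := this
        _ ≤ 1 * n2 M.T.τ ((q - q') * x) := mul_le_mul_of_nonneg_right hxs h0
        _ = _ := one_mul _
    have b2 : n2 M.T.τ ((q - q') * x) ≤ n2 M.T.τ (x * p - q * x) + n2 M.T.τ (x * p - q' * x) := by
      have e2 : (q - q') * x = (x * p - q' * x) - (x * p - q * x) := by noncomm_ring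
      rw [e2, add_comm]
      exact hA.n2_sub_le _ _
    have b3 : n2 M.T.τ ((q - q') * (x * star x - 1)) ≤ 2 * n2 M.T.τ (star x * x - 1) := by
      have h3 := n2_mul_le M.T (q - q') (x * star x - 1)
      have h4 : ‖((q - q' : M.A) : M.H →L[ℂ] M.H)‖ ≤ 2 := by
        have : ‖q - q'‖ ≤ ‖q‖ + ‖q'‖ := norm_sub_le _ _
        have h5 : ‖q - q'‖ ≤ 2 := by linarith
        exact h5
      rw [← n2_swap hA]
      exact h3.trans (mul_le_mul_of_nonneg_right h4 (n2_nonneg _ _))
    have b4 := hA.n2_sub_le ((q - q') * x * star x) ((q - q') * (x * star x - 1))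
    rw [← e1, hd] at b4
    have b5 : (1 / 6 : ℝ) * 4 < Real.sqrt (1 / 2) := by
      apply Real.lt_sqrt_of_sq_lt
      norm_num
    have p1 := n2_nonneg M.T.τ (x * p - q * x)
    have p2 := n2_nonneg M.T.τ (x * p - q' * x)
    have p3 := n2_nonneg M.T.τ (star x * x - 1)
    linarith
  · intro η n
    -- a level that contains all the relevant factors
    obtain ⟨K, hK⟩ : ∃ K : ℕ, ∀ i < n, Nat.pair i 0 < K ∧ Nat.pair i (η i + 1) < K := by
      refine ⟨(∑ i ∈ Finset.range n, (Nat.pair i 0 + Nat.pair i (η i + 1))) + 1, fun i hi => ?_⟩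
      have h9 : Nat.pair i 0 + Nat.pair i (η i + 1) ≤
          ∑ i ∈ Finset.range n, (Nat.pair i 0 + Nat.pair i (η i + 1)) :=
        Finset.single_le_sum (f := fun i => Nat.pair i 0 + Nat.pair i (η i + 1))
          (fun i _ => Nat.zero_le _) (Finset.mem_range.2 hi)
      omega
    obtain ⟨σ, hσ⟩ := exists_perm (Λ := Fin K) (V := Fin n) Set.univ
      (fun i => ⟨Nat.pair i 0, (hK i i.2).1⟩) (fun i => ⟨Nat.pair i (η i + 1), (hK i i.2).2⟩)
      (by
        intro v _ v' _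
        constructor
        · intro heq
          have h1 : Nat.pair (v : ℕ) 0 = Nat.pair (v' : ℕ) 0 := congrArg Fin.val heq
          have h2 := (Nat.pair_eq_pair.1 h1).1
          rw [Fin.ext h2]
        · intro heq
          have h1 : Nat.pair (v : ℕ) (η v + 1) = Nat.pair (v' : ℕ) (η v' + 1) :=
            congrArg Fin.val heq
          have h2 := (Nat.pair_eq_pair.1 h1).1
          rw [Fin.ext h2])
    have hu := (h.mu K).pm_star_mul (ind σ)
    refine ⟨fun _ => pm (E K) (ind σ), ?_, ?_⟩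
    · intro _
      rw [M.mem_ball]
      simpa using unitary_norm h hu
    · intro i hi
      rw [tpF_eval]
      show n2 M.T.τ (pm (E K) (ind σ) * pj E (Nat.pair i 0) -
        pj E (Nat.pair i (η i + 1)) * pm (E K) (ind σ)) +
          n2 M.T.τ (star (pm (E K) (ind σ)) * pm (E K) (ind σ) - 1) = 0
      have h1 : pm (E K) (ind σ) * pj E (Nat.pair i 0) =
          pj E (Nat.pair i (η i + 1)) * pm (E K) (ind σ) := by
        rw [h.pj_eq _ K (hK i hi).1, h.pj_eq _ K (hK i hi).2]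
        refine (h.mu K).pm_mul_dg (ind σ) _ _ fun s => ?_
        have h2 := hσ (⟨i, hi⟩ : Fin n) (Set.mem_univ _)
        have h3 := ind_apply σ s (⟨Nat.pair i 0, (hK i hi).1⟩ : Fin K)
        have h4 : σ (⟨Nat.pair i 0, (hK i hi).1⟩ : Fin K) =
          ⟨Nat.pair i (η i + 1), (hK i hi).2⟩ := h2
        rw [h4] at h3
        exact h3
      rw [h1, sub_self, hu, sub_self, hA.n2_zero, add_zero]

/-! ### Conclusions -/

theorem all_of_car (M : TVNA) (hM : ContainsCAR M) :
    HasSOP M.theory ∧ HasTP2 M.theory ∧ ¬ IsSimple M.theory := by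
  obtain ⟨E, hE⟩ := hM
  have h : IsChain E := ⟨fun k => ⟨fun i j l => hE.mul_same k i j l,
    fun i j k' l hjk => hE.mul_ne k i j k' l hjk, fun i j => hE.adj k i j, hE.sum k⟩, hE.step⟩
  exact ⟨has_sop M E h, has_tp2 M E h, not_simple_of_chain M E h⟩

theorem car_of_factor (M : TVNA) (hM : IsIIOneFactor M.N M.τ) : ContainsCAR M := by
  obtain ⟨E, h⟩ := exists_chain M hM
  exact ⟨E, fun k s t u => (h.mu k).same s t u, fun k s t t' u htt => (h.mu k).ne s t t' u htt,
    fun k s t => (h.mu k).adj s t, fun k => (h.mu k).sum, h.step⟩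

end Pool.Agent.KS6_75.SOP
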